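import Mathlib

/-!
# Growth rates of finite algebras: resolution calculus, basic definitions

`Q` is always a set of functions `Y → A` (think: a subuniverse of the power `A^Y`).
`Res Q F` says that every function factoring through `F : Y → L` lies in `Q`.
`RD c Q` is the rule given by a generating set `c` (with spare rows);
`RT t Q` is the threshold rule.
-/

open scoped Classical

namespace MPb06d56

variable {A : Type} {R X : Type}

/-- every function which factors through `F` lies in `Q` -/
def Res {Y L : Type} (Q : Set (Y → A)) (F : Y → L) : Prop := ∀ g : L → A, g ∘ F ∈ Q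

/-- the rule attached to functions `c i : X → A` -/
def RD (c : R → X → A) {Y : Type} (Q : Set (Y → A)) : Prop :=
  ∀ (L : Type) (θ : Y → X ⊕ L), (∀ i, Res Q (Sum.map (c i) id ∘ θ)) → Res Q θ

/-- replace the label `l` by `l0` -/
noncomputable def merge {L : Type} (l l0 : L) (x : L) : L := if x = l then l0 else x

/-- the threshold rule: if `l0 ∉ S`, `t ≤ |S|`, and all merges `l ↦ l0` (`l ∈ S`) of `F`
are resolved, then `F` is resolved -/
def RT (t : ℕ) {Y : Type} (Q : Set (Y → A)) : Prop :=
  ∀ (L : Type) (F : Y → L) (l0 : L) (S : Finset L), t ≤ S.card → l0 ∉ S →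
    (∀ l ∈ S, Res Q (fun y => merge l l0 (F y))) → Res Q F

/-- the derived set of functions -/
def der {Y Y' Λ : Type} (θ : Y → Y' ⊕ Λ) (Q : Set (Y → A)) : Set (Y' → A) :=
  {f | ∀ g : Λ → A, Sum.elim f g ∘ θ ∈ Q}

/-- main inductive statement: the coordinate-deletion theorem for threshold `t` with `M`
active coordinates -/
def T (c : R → X → A) (t M : ℕ) : Prop :=
  ∀ (Y : Type) (Q : Set (Y → A)), RD c Q → RT t Q →
    ∀ (P K : Type) [Finite P] [Finite K] (π : Y → P) (κ : Fin M → Y → K),
      (∀ i, Res Q (fun y => (π y, fun j => if j = i then none else some (κ j y)))) →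
      Res Q (fun y => (π y, fun j => κ j y))

/-- deleting the coordinates in `B` -/
noncomputable def era {ι K : Type} (B : Set ι) (k : ι → K) : ι → Option K :=
  fun j => if j ∈ B then none else some (k j)

theorem era_eq_iff {ι K : Type} {B B' : Set ι} {k k' : ι → K} (h : B = B') :
    era B k = era B' k' ↔ ∀ j, j ∉ B → k j = k' j := by
  subst h
  constructor
  · intro h j hj
    have := congrFun h j
    simpa [era, hj] using this
  · intro h
    funext j
    by_cases hj : j ∈ B
    · simp [era, hj]
    · simp [era, hj, h j hj]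

theorem Res.mono {Y L L' : Type} [Nonempty A] {Q : Set (Y → A)} {F : Y → L} {G : Y → L'}
    (h : Res Q F) (hFG : ∀ y y', F y = F y' → G y = G y') : Res Q G := by
  intro g
  have := h (fun l => if hl : ∃ y, F y = l then g (G hl.choose) else Classical.arbitrary A)
  convert this using 1
  funext y
  have hl : ∃ y', F y' = F y := ⟨y, rfl⟩
  simp only [Function.comp]
  rw [dif_pos hl]
  rw [hFG _ _ hl.choose_spec]

theorem RT.mono {t t' : ℕ} (h : t ≤ t') {Y : Type} {Q : Set (Y → A)} (hQ : RT t Q) : RT t' Q :=
  fun L F l0 S hS hl0 hm => hQ L F l0 S (h.trans hS) hl0 hm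

theorem res_der {Y Y' Λ L : Type} {θ : Y → Y' ⊕ Λ} {Q : Set (Y → A)} {F : Y' → L} :
    Res (der θ Q) F ↔ Res Q (Sum.map F id ∘ θ) := by
  constructor
  · intro h g
    have := h (g ∘ Sum.inl) (g ∘ Sum.inr)
    convert this using 1
    funext y
    simp only [Function.comp]
    rcases θ y with a | b <;> rfl
  · intro h g f
    have := h (Sum.elim g f)
    convert this using 1
    funext y
    simp only [Function.comp]
    rcases θ y with a | b <;> rfl

theorem RD.der [Nonempty A] {c : R → X → A} {Y Y' Λ : Type} (θ : Y → Y' ⊕ Λ) {Q : Set (Y → A)}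
    (h : RD c Q) : RD c (der θ Q) := by
  intro L θ' hθ'
  rw [res_der]
  have key := h (L ⊕ Λ) (Equiv.sumAssoc X L Λ ∘ Sum.map θ' id ∘ θ) ?_
  · refine key.mono ?_
    intro y y' hy
    exact (Equiv.sumAssoc X L Λ).injective hy
  · intro i
    refine (res_der.1 (hθ' i)).mono ?_
    intro y y' hy
    simp only [Function.comp] at hy ⊢
    rcases hy1 : θ y with a | a <;> rcases hy2 : θ y' with b | b <;>
      simp only [hy1, hy2, Sum.map_inl, Sum.map_inr, Sum.inl.injEq, reduceCtorEq,
        Function.comp] at hy ⊢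
    · rcases hA : θ' a with u | u <;> rcases hB : θ' b with v | v <;>
        simp only [hA, hB] at hy ⊢ <;> simp_all
    · simp_all

theorem RT.der [Nonempty A] {t : ℕ} {Y Y' Λ : Type} (θ : Y → Y' ⊕ Λ) {Q : Set (Y → A)}
    (h : RT t Q) : RT t (der θ Q) := by
  intro L F l0 S hS hl0 hm
  rw [res_der]
  refine h (L ⊕ Λ) _ (Sum.inl l0) (S.map ⟨Sum.inl, Sum.inl_injective⟩) (by simpa using hS)
    (by simpa using hl0) ?_
  intro l hl
  obtain ⟨l', hl', rfl⟩ := Finset.mem_map.1 hl
  refine (res_der.1 (hm l' hl')).mono ?_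
  intro y y' hy
  simp only [Function.comp, Function.Embedding.coeFn_mk] at hy ⊢
  rcases hy1 : θ y with a | a <;> rcases hy2 : θ y' with b | b <;>
    simp only [hy1, hy2, Sum.map_inl, Sum.map_inr, Sum.inl.injEq, reduceCtorEq, merge] at hy ⊢
  · split_ifs at hy ⊢ <;> simp_all
  · simp_all

/-- merging: deleting one label per threshold -/
theorem drop [Nonempty A] {t : ℕ} {Y Y' Λ : Type} [Finite Λ] (θ : Y → Y' ⊕ Λ) {Q : Set (Y → A)}
    (h : RT (t + 1) Q) (hθ : Res Q (Sum.map id (fun _ => ()) ∘ θ)) : RT t (MPb06d56.der θ Q) := by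
  intro L F l0 S hS hl0 hm
  have key : ∀ Λ' : Finset Λ, Res Q (fun y => Sum.elim (fun y' => (Sum.inl (F y') : L ⊕ Λ))
      (fun l => if l ∈ Λ' then Sum.inr l else Sum.inl l0) (θ y)) := by
    intro Λ'
    induction Λ' using Finset.induction_on with
    | empty =>
      refine hθ.mono ?_
      intro y y' hy
      simp only [Function.comp] at hy
      rcases hy1 : θ y with a | a <;> rcases hy2 : θ y' with b | b <;> simp_all
    | insert x Λ'' hx ih =>
      refine h (L ⊕ Λ) _ (Sum.inl l0) (insert (Sum.inr x) (S.map ⟨Sum.inl, Sum.inl_injective⟩))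
        ?_ (by simpa using hl0) ?_
      · rw [Finset.card_insert_of_notMem (by simp)]
        simpa using hS
      · intro l hl
        rcases Finset.mem_insert.1 hl with rfl | hl
        · refine ih.mono ?_
          intro y y' hy
          rcases hy1 : θ y with a | a <;> rcases hy2 : θ y' with b | b <;>
            simp only [hy1, hy2, Sum.elim_inl, Sum.elim_inr, merge, Finset.mem_insert] at hy ⊢
          · simpa using hy
          · by_cases hb : b = x
            · subst hb; simpa [hx] using hy
            · by_cases hb' : b ∈ Λ''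
              · simp [hb'] at hy
              · simpa [hb', hb] using hy
          · by_cases ha : a = x
            · subst ha; simpa [hx] using hy
            · by_cases ha' : a ∈ Λ''
              · simp [ha'] at hy
              · simpa [ha', ha] using hy
          · by_cases ha : a = x <;> by_cases hb : b = x
            · simp [ha, hb]
            · subst ha
              by_cases hb' : b ∈ Λ'' <;> simp_all
            · subst hb
              by_cases ha' : a ∈ Λ'' <;> simp_all
            · by_cases ha' : a ∈ Λ'' <;> by_cases hb' : b ∈ Λ'' <;> simp_all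
        · obtain ⟨l', hl', rfl⟩ := Finset.mem_map.1 hl
          refine (res_der.1 (hm l' hl')).mono ?_
          intro y y' hy
          simp only [Function.comp, Function.Embedding.coeFn_mk] at hy ⊢
          rcases hy1 : θ y with a | a <;> rcases hy2 : θ y' with b | b <;>
            simp only [hy1, hy2, Sum.map_inl, Sum.map_inr, Sum.inl.injEq, reduceCtorEq] at hy ⊢
          · simp only [merge, Sum.elim_inl] at hy ⊢
            split_ifs at hy ⊢ <;> simp_all
          · simp_all
  rw [res_der]
  have := Fintype.ofFinite Λ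
  refine (key Finset.univ).mono ?_
  intro y y' hy
  simp only [Function.comp] at hy ⊢
  rcases hy1 : θ y with a | a <;> rcases hy2 : θ y' with b | b <;> simp_all

theorem T.use [Nonempty A] {c : R → X → A} {t M : ℕ} (hT : T c t M) {Y : Type} {Q : Set (Y → A)}
    (hD : RD c Q) (hR : RT t Q) {P K : Type} [Finite P] [Finite K] (π : Y → P)
    (κ : Fin M → Y → K)
    (hE : ∀ i, ∃ (V : Type) (E : Y → V), Res Q E ∧
      ∀ y y', E y = E y' → π y = π y' ∧ ∀ j, j ≠ i → κ j y = κ j y')
    {V : Type} (F : Y → V)
    (hF : ∀ y y', π y = π y' → (∀ j, κ j y = κ j y') → F y = F y') : Res Q F := by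
  have key := hT Y Q hD hR P K π κ ?_
  · refine key.mono ?_
    intro y y' hy
    simp only [Prod.mk.injEq] at hy
    exact hF y y' hy.1 (fun j => congrFun hy.2 j)
  · intro i
    obtain ⟨V, E, hE, hE'⟩ := hE i
    refine hE.mono ?_
    intro y y' hy
    obtain ⟨h1, h2⟩ := hE' y y' hy
    simp only [h1, Prod.mk.injEq, true_and]
    funext j
    by_cases hj : j = i
    · simp [hj]
    · simp [hj, h2 j hj]

/-- The workhorse: combination of `der`, `drop` and `T`. -/
theorem DT [Nonempty A] {c : R → X → A} {t M : ℕ} (hT : T c t M) {Y : Type} {Q : Set (Y → A)}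
    (hD : RD c Q) (hR : RT (t + 1) Q) {P K Λ : Type} [Finite P] [Finite K] [Finite Λ]
    (r : Y → Prop) (π : Y → P) (κ : Fin M → Y → K) (lam : Y → Λ)
    (hdrop : ∃ (V : Type) (E : Y → V), Res Q E ∧
      ∀ y y', E y = E y' → (r y ↔ r y') ∧ (r y → π y = π y' ∧ ∀ j, κ j y = κ j y'))
    (hE : ∀ i, ∃ (V : Type) (E : Y → V), Res Q E ∧
      ∀ y y', E y = E y' → (r y ↔ r y') ∧ (r y → π y = π y' ∧ ∀ j, j ≠ i → κ j y = κ j y') ∧
        (¬ r y → lam y = lam y'))
    {V : Type} (F : Y → V)
    (hF1 : ∀ y y', r y → r y' → π y = π y' → (∀ j, κ j y = κ j y') → F y = F y')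
    (hF2 : ∀ y y', ¬ r y → ¬ r y' → lam y = lam y' → F y = F y') : Res Q F := by
  let θ : Y → (P × (Fin M → K)) ⊕ Λ := fun y =>
    if r y then Sum.inl (π y, fun j => κ j y) else Sum.inr (lam y)
  have h1 : RT t (MPb06d56.der θ Q) := by
    refine drop θ hR ?_
    obtain ⟨V, E, hE, hE'⟩ := hdrop
    refine hE.mono ?_
    intro y y' hy
    obtain ⟨h1, h2⟩ := hE' y y' hy
    by_cases hr : r y
    · have hr' := h1.1 hr
      obtain ⟨h3, h4⟩ := h2 hr
      simp [θ, hr, hr', h3, h4]
    · have hr' : ¬ r y' := fun h => hr (h1.2 h)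
      simp [θ, hr, hr']
  have h2 : RD c (MPb06d56.der θ Q) := hD.der θ
  have h3 : Res (MPb06d56.der θ Q) (id : P × (Fin M → K) → _) := by
    refine hT.use h2 h1 (Prod.fst) (fun j y => y.2 j) ?_ _ ?_
    · intro i
      refine ⟨P × (Fin M → Option K), fun y => (y.1, fun j => if j = i then none else some (y.2 j)), ?_, ?_⟩
      · rw [res_der]
        obtain ⟨V, E, hE, hE'⟩ := hE i
        refine hE.mono ?_
        intro y y' hy
        obtain ⟨h1, h2, h3⟩ := hE' y y' hy
        by_cases hr : r y
        · have hr' := h1.1 hr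
          obtain ⟨h4, h5⟩ := h2 hr
          simp only [Function.comp, θ, hr, hr', if_true, Sum.map_inl, Sum.inl.injEq, h4,
            Prod.mk.injEq, true_and]
          funext j
          by_cases hj : j = i
          · simp [hj]
          · simp [hj, h5 j hj]
        · have hr' : ¬ r y' := fun h => hr (h1.2 h)
          simp [θ, hr, hr', h3 hr]
      · rintro ⟨p, k⟩ ⟨p', k'⟩ hy
        simp only [Prod.mk.injEq] at hy
        refine ⟨hy.1, fun j hj => ?_⟩
        have := congrFun hy.2 j
        simpa [hj] using this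
    · rintro ⟨p, k⟩ ⟨p', k'⟩ hp hk
      simp only [id, Prod.mk.injEq]
      exact ⟨hp, funext hk⟩
  rw [res_der] at h3
  refine h3.mono ?_
  intro y y' hy
  by_cases hr : r y <;> by_cases hr' : r y' <;> simp only [Function.comp, θ, hr, hr', if_true,
    if_false, Sum.map_inl, Sum.map_inr, id, Sum.inl.injEq, Sum.inr.injEq, Prod.mk.injEq,
    reduceCtorEq] at hy
  · exact hF1 y y' hr hr' hy.1 (fun j => congrFun hy.2 j)
  · exact hF2 y y' hr hr' hy

end MPb06d56
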