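import Pool.Agent.Lib.MP_b06d56_al.LemZ

/-!
# From balanced assignments to single cells, II
-/

open scoped Classical

namespace MPb06d56

variable {A : Type} {R X : Type}

theorem imb_abs_le {ιP ιQ L : Type} [Fintype ιP] [Fintype ιQ] (τ : ιP ⊕ ιQ → Option L) (l : L) :
    |imb τ l| ≤ supp τ := by
  unfold imb supp
  have h1 : (Finset.univ.filter (fun p : ιP => τ (Sum.inl p) = some l)).card ≤
      (Finset.univ.filter (fun x : ιP ⊕ ιQ => τ x ≠ none)).card := by
    apply Finset.card_le_card_of_injOn (fun p => Sum.inl p)
    · intro p hp
      simp only [Finset.coe_filter, Finset.mem_univ, true_and, Set.mem_ofPred_eq] at hp ⊢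
      rw [hp]; simp
    · exact Sum.inl_injective.injOn
  have h2 : (Finset.univ.filter (fun p : ιQ => τ (Sum.inr p) = some l)).card ≤
      (Finset.univ.filter (fun x : ιP ⊕ ιQ => τ x ≠ none)).card := by
    apply Finset.card_le_card_of_injOn (fun p => Sum.inr p)
    · intro p hp
      simp only [Finset.coe_filter, Finset.mem_univ, true_and, Set.mem_ofPred_eq] at hp ⊢
      rw [hp]; simp
    · exact Sum.inr_injective.injOn
  rw [abs_le]
  constructor <;> omega

theorem imb_zero_of_not {ιP ιQ L : Type} [Fintype ιP] [Fintype ιQ] (τ : ιP ⊕ ιQ → Option L) (l : L)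
    (h : ∀ x, τ x ≠ some l) : imb τ l = 0 := by
  unfold imb
  rw [Finset.filter_false_of_mem (fun x _ => h _), Finset.filter_false_of_mem (fun x _ => h _)]
  simp

/-- the bad labels -/
noncomputable def bad (g : ℕ) {ιP ιQ L : Type} [Fintype ιP] [Fintype ιQ] [Fintype L]
    (τ : ιP ⊕ ιQ → Option L) : Finset L := Finset.univ.filter (fun l => ¬ (g : ℤ) ∣ imb τ l)

theorem bad_card_le (g : ℕ) {ιP ιQ L : Type} [Fintype ιP] [Fintype ιQ] [Fintype L]
    (τ : ιP ⊕ ιQ → Option L) : (bad g τ).card ≤ supp τ := by
  have h : (bad g τ).map ⟨some, Option.some_injective _⟩ ⊆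
      (Finset.univ.filter (fun x : ιP ⊕ ιQ => τ x ≠ none)).image τ := by
    intro o ho
    obtain ⟨l, hl, rfl⟩ := Finset.mem_map.1 ho
    simp only [Function.Embedding.coeFn_mk, Finset.mem_image, Finset.mem_filter, Finset.mem_univ,
      true_and]
    by_contra hcon
    push Not at hcon
    simp only [bad, Finset.mem_filter, Finset.mem_univ, true_and] at hl
    rw [imb_zero_of_not τ l (fun x hx => hcon x (by rw [hx]; simp) hx)] at hl
    simp at hl
  have h2 := Finset.card_le_card h
  rw [Finset.card_map] at h2
  exact h2.trans Finset.card_image_le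

/-- modified assignment -/
noncomputable def modif {α L X : Type} (τ : α → Option L) (l : L) (d : X)
    (f : α → Option X) (x : α) : Option (X ⊕ L) :=
  match τ x with
  | some l' => if l' = l then some (Sum.inl d) else some (Sum.inr l')
  | none => (f x).map Sum.inl

theorem modif_eq_inl {α L X : Type} {τ : α → Option L} {l : L} {d : X}
    {f : α → Option X} {a : α} {x : X} : modif τ l d f a = some (Sum.inl x) ↔
      (x = d ∧ τ a = some l) ∨ (τ a = none ∧ f a = some x) := by
  unfold modif
  rcases h : τ a with _ | l'
  · simp
  · by_cases hl : l' = l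
    · simp [hl, eq_comm]
    · simp [hl]

theorem modif_eq_inr {α L X : Type} {τ : α → Option L} {l : L} {d : X}
    {f : α → Option X} {a : α} {l' : L} : modif τ l d f a = some (Sum.inr l') ↔
      l' ≠ l ∧ τ a = some l' := by
  unfold modif
  rcases h : τ a with _ | l''
  · simp
  · by_cases hl : l'' = l
    · simp only [hl, if_true, Option.some.injEq, reduceCtorEq, false_iff, not_and]
      intro h h'
      exact h h'.symm
    · simp only [hl, if_false, Option.some.injEq, Sum.inr.injEq]
      constructor
      · rintro rfl; exact ⟨hl, rfl⟩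
      · exact fun h => h.2

theorem modif_eq_none {α L X : Type} {τ : α → Option L} {l : L} {d : X}
    {f : α → Option X} {a : α} : modif τ l d f a = none ↔ τ a = none ∧ f a = none := by
  unfold modif
  rcases h : τ a with _ | l''
  · simp
  · by_cases hl : l'' = l <;> simp [hl]

theorem modif_card {α L X : Type} [Fintype α] {τ : α → Option L} {l : L} {d : X}
    {f : α → Option X} (hf : ∀ a, τ a ≠ none → f a = none) (hd : ∀ a, f a ≠ some d) (x : X) :
    (Finset.univ.filter (fun a => modif τ l d f a = some (Sum.inl x))).card =
      if x = d then (Finset.univ.filter (fun a => τ a = some l)).card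
      else (Finset.univ.filter (fun a => f a = some x)).card := by
  split_ifs with hx
  · subst hx
    congr 1
    ext a
    simp only [Finset.mem_filter, Finset.mem_univ, true_and, modif_eq_inl]
    constructor
    · rintro (h | h)
      · exact h
      · exact absurd h.2 (hd a)
    · exact fun h => Or.inl h
  · congr 1
    ext a
    simp only [Finset.mem_filter, Finset.mem_univ, true_and, modif_eq_inl]
    constructor
    · rintro (h | h)
      · exact absurd h.1 hx
      · exact h.2
    · intro h
      refine Or.inr ⟨?_, h⟩
      by_contra hcon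
      rw [hf a hcon] at h
      simp at h

theorem supp_split {ιP ιQ L : Type} [Fintype ιP] [Fintype ιQ] (τ : ιP ⊕ ιQ → Option L) :
    supp τ = (Finset.univ.filter (fun p : ιP => τ (Sum.inl p) ≠ none)).card +
      (Finset.univ.filter (fun q : ιQ => τ (Sum.inr q) ≠ none)).card := by
  unfold supp
  rw [Finset.card_filter, Fintype.sum_sum_type, Finset.card_filter, Finset.card_filter]

theorem card_some {α X : Type} [Fintype α] [Fintype X] (f : α → Option X) :
    (Finset.univ.filter (fun a => f a ≠ none)).card =
      ∑ x, (Finset.univ.filter (fun a => f a = some x)).card := by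
  rw [← Finset.card_biUnion]
  · congr 1
    ext a
    simp only [Finset.mem_filter, Finset.mem_univ, true_and, Finset.mem_biUnion]
    exact Option.ne_none_iff_exists'
  · intro l _ l' _ hll'
    simp only [Function.onFun]
    rw [Finset.disjoint_left]
    intro a ha ha'
    simp only [Finset.mem_filter, Finset.mem_univ, true_and] at ha ha'
    rw [ha] at ha'
    exact hll' (Option.some_injective _ ha')

theorem claimZ [Nonempty A] [Fintype A] [Fintype R] [Fintype X] (c : R → X → A) (g : ℕ)
    (y : X → ℤ) (hy : ∀ i b, (g : ℤ) ∣ ∑ x ∈ Finset.univ.filter (fun x => c i x = b), y x) (d : X)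
    (b : ℕ) : ∀ n' : ℕ, ∃ n N : ℕ, ∀ (Y ιP ιQ : Type) [Fintype ιP] [Fintype ιQ] (Q : Set (Y → A))
      (cell : Y → Option (ιP ⊕ ιQ)), N ≤ Fintype.card ιP → N ≤ Fintype.card ιQ → RD c Q →
      Zst g n Q cell → ∀ (L : Type) [Fintype L] (τ : ιP ⊕ ιQ → Option L), supp τ ≤ n' →
        (∀ l, (Int.gcd g (y d) : ℤ) ∣ imb τ l) → (bad g τ).card ≤ b →
        Res Q (fun y => (cell y).bind τ) := by
  induction b with
  | zero =>
    intro n'
    refine ⟨n', 0, ?_⟩
    intro Y ιP ιQ _ _ Q cell _ _ hD hZ L _ τ hτ hg hb
    refine hZ L τ hτ ?_
    intro l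
    by_contra hcon
    have : l ∈ bad g τ := by simp [bad, hcon]
    rw [Nat.le_zero, Finset.card_eq_zero] at hb
    rw [hb] at this
    simp at this
  | succ b ih =>
    intro n'
    -- choose vectors
    have hvec : ∀ κ : ℤ, ∃ y' : X → ℤ, (Int.gcd g (y d) : ℤ) ∣ κ → (y' d = κ ∧
      ∀ i b, (g : ℤ) ∣ ∑ x ∈ Finset.univ.filter (fun x => c i x = b), y' x) := by
      intro κ
      by_cases hκ : (Int.gcd g (y d) : ℤ) ∣ κ
      · obtain ⟨y', hy'⟩ := exists_vec c g y hy d κ hκ
        exact ⟨y', fun _ => hy'⟩
      · exact ⟨0, fun h => absurd h hκ⟩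
    choose v hv using hvec
    obtain ⟨Kb, hKb⟩ : ∃ Kb : ℕ, ∀ κ : ℤ, |κ| ≤ n' → ∑ x, (v κ x).natAbs ≤ Kb := by
      refine ⟨∑ κ ∈ Finset.Icc (-(n' : ℤ)) n', ∑ x, (v κ x).natAbs, ?_⟩
      intro κ hκ
      refine Finset.single_le_sum (f := fun κ => ∑ x, (v κ x).natAbs) (fun _ _ => Nat.zero_le _) ?_
      rw [Finset.mem_Icc]
      exact abs_le.1 hκ
    obtain ⟨n, N, hnN⟩ := ih (n' + Kb)
    refine ⟨n, max N (n' + Kb), ?_⟩
    intro Y ιP ιQ _ _ Q cell hP hQ hD hZ L _ τ hτ hg hb
    by_cases hbad : bad g τ = ∅
    · refine hnN Y ιP ιQ Q cell ((le_max_left _ _).trans hP) ((le_max_left _ _).trans hQ) hD hZ L τ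
        (by omega) hg (by rw [hbad]; simp)
    · obtain ⟨l, hl⟩ := Finset.nonempty_iff_ne_empty.2 hbad
      have hvl := hv (imb τ l) (hg l)
      have hKl := hKb (imb τ l) ((imb_abs_le τ l).trans (by exact_mod_cast hτ))
      set w := v (imb τ l) with hw
      clear_value w
      obtain ⟨hwd, hw2⟩ := hvl
      -- choose the extra cells
      have hUP : n' + Kb ≤ Fintype.card ιP := (le_max_right _ _).trans hP
      have hUQ : n' + Kb ≤ Fintype.card ιQ := (le_max_right _ _).trans hQ
      have hsp := supp_split τ
      obtain ⟨fP, hfP, hfP'⟩ := exists_choice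
        (Finset.univ.filter (fun p : ιP => τ (Sum.inl p) = none))
        (fun x : X => if x = d then 0 else (w x).toNat) (by
          have h1 := Finset.card_filter_add_card_filter_not (s := (Finset.univ : Finset ιP))
            (fun p : ιP => τ (Sum.inl p) = none)
          rw [Finset.card_univ] at h1
          have h2 : ∑ x, (if x = d then 0 else (w x).toNat) ≤ ∑ x, (w x).natAbs := by
            apply Finset.sum_le_sum
            intro x _
            split_ifs <;> omega
          simp only [ne_eq] at hsp
          omega)
      obtain ⟨fQ, hfQ, hfQ'⟩ := exists_choice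
        (Finset.univ.filter (fun p : ιQ => τ (Sum.inr p) = none))
        (fun x : X => if x = d then 0 else (-(w x)).toNat) (by
          have h1 := Finset.card_filter_add_card_filter_not (s := (Finset.univ : Finset ιQ))
            (fun p : ιQ => τ (Sum.inr p) = none)
          rw [Finset.card_univ] at h1
          have h2 : ∑ x, (if x = d then 0 else (-(w x)).toNat) ≤ ∑ x, (w x).natAbs := by
            apply Finset.sum_le_sum
            intro x _
            split_ifs <;> omega
          simp only [ne_eq] at hsp
          omega)
      have hfPn : ∀ a, τ (Sum.inl a) ≠ none → fP a = none :=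
        fun a ha => hfP a (by simpa using ha)
      have hfQn : ∀ a, τ (Sum.inr a) ≠ none → fQ a = none :=
        fun a ha => hfQ a (by simpa using ha)
      have hfPd : ∀ a, fP a ≠ some d := by
        intro a ha
        have h1 := hfP' d
        simp only [if_true, Finset.card_eq_zero] at h1
        have : a ∈ Finset.univ.filter (fun a => fP a = some d) := by simp [ha]
        rw [h1] at this
        simp at this
      have hfQd : ∀ a, fQ a ≠ some d := by
        intro a ha
        have h1 := hfQ' d
        simp only [if_true, Finset.card_eq_zero] at h1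
        have : a ∈ Finset.univ.filter (fun a => fQ a = some d) := by simp [ha]
        rw [h1] at this
        simp at this
      have hcP := fun x => modif_card (τ := fun p => τ (Sum.inl p)) (l := l) (d := d) hfPn hfPd x
      have hcQ := fun x => modif_card (τ := fun p => τ (Sum.inr p)) (l := l) (d := d) hfQn hfQd x
      have himb : ∀ x, imb (modif τ l d (Sum.elim fP fQ)) (Sum.inl x) = w x := by
        intro x
        have h1 : imb (modif τ l d (Sum.elim fP fQ)) (Sum.inl x) =
          ((Finset.univ.filter (fun a => modif (fun p => τ (Sum.inl p)) l d fP a =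
            some (Sum.inl x))).card : ℤ) - ((Finset.univ.filter (fun a =>
              modif (fun p => τ (Sum.inr p)) l d fQ a = some (Sum.inl x))).card : ℤ) := by
          unfold imb
          congr!
        rw [h1, hcP, hcQ]
        by_cases hx : x = d
        · subst hx
          rw [if_pos rfl, if_pos rfl, hwd]
          rfl
        · rw [if_neg hx, if_neg hx, hfP', hfQ', if_neg hx, if_neg hx]
          omega
      have himb' : ∀ l', imb (modif τ l d (Sum.elim fP fQ)) (Sum.inr l') =
          if l' = l then 0 else imb τ l' := by
        intro l'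
        split_ifs with h
        · apply imb_zero_of_not
          intro x hx
          rw [modif_eq_inr] at hx
          exact hx.1 h
        · unfold imb
          congr 3
          · ext a
            simp only [Finset.mem_filter, Finset.mem_univ, true_and, modif_eq_inr]
            exact ⟨fun h => h.2, fun h' => ⟨h, h'⟩⟩
          · ext a
            simp only [Finset.mem_filter, Finset.mem_univ, true_and, modif_eq_inr]
            exact ⟨fun h => h.2, fun h' => ⟨h, h'⟩⟩
      have hsupp : supp (modif τ l d (Sum.elim fP fQ)) ≤ n' + Kb := by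
        have h1 : supp (modif τ l d (Sum.elim fP fQ)) ≤ supp τ + supp (Sum.elim fP fQ) := by
          unfold supp
          rw [← Finset.card_union_add_card_inter]
          refine le_trans (Finset.card_le_card ?_) (Nat.le_add_right _ _)
          intro x
          simp only [Finset.mem_filter, Finset.mem_univ, true_and, Finset.mem_union, ne_eq,
            modif_eq_none]
          tauto
        have h2 : supp (Sum.elim fP fQ) ≤ Kb := by
          rw [supp_split]
          simp only [Sum.elim_inl, Sum.elim_inr]
          rw [card_some fP, card_some fQ, ← Finset.sum_add_distrib]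
          refine le_trans (Finset.sum_le_sum ?_) hKl
          intro x _
          rw [hfP', hfQ']
          split_ifs <;> omega
        omega
      have hcomp : ∀ i : R, Res Q (fun y => (cell y).bind (fun x =>
          (modif τ l d (Sum.elim fP fQ) x).map (Sum.map (c i) (id : L → L)))) := by
        intro i
        have hinl : ∀ b', imb (fun x => (modif τ l d (Sum.elim fP fQ) x).map
            (Sum.map (c i) (id : L → L))) (Sum.inl b') =
              ∑ x ∈ Finset.univ.filter (fun x => c i x = b'), w x := by
          intro b'
          rw [imb_map]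
          rw [Finset.sum_filter, Fintype.sum_sum_type, Finset.sum_filter]
          simp only [Sum.map_inl, Sum.inl.injEq, Sum.map_inr, reduceCtorEq, if_false,
            Finset.sum_const_zero, add_zero, himb]
        have hinr : ∀ l', imb (fun x => (modif τ l d (Sum.elim fP fQ) x).map
            (Sum.map (c i) (id : L → L))) (Sum.inr l') = if l' = l then 0 else imb τ l' := by
          intro l'
          rw [imb_map]
          rw [Finset.sum_filter, Fintype.sum_sum_type]
          simp only [Sum.map_inl, Sum.inr.injEq, Sum.map_inr, reduceCtorEq, if_false,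
            Finset.sum_const_zero, zero_add, id, himb', Finset.sum_ite_eq', Finset.mem_univ,
            if_true]
        refine hnN Y ιP ιQ Q cell ((le_max_left _ _).trans hP) ((le_max_left _ _).trans hQ) hD hZ
          (A ⊕ L) _ ?_ ?_ ?_
        · refine le_trans ?_ hsupp
          unfold supp
          apply Finset.card_le_card
          intro x
          simp only [Finset.mem_filter, Finset.mem_univ, true_and, ne_eq, Option.map_eq_none_iff]
          exact fun h => h
        · rintro (b' | l')
          · rw [hinl]
            exact (Int.gcd_dvd_left (a := (g : ℤ)) (b := y d)).trans (hw2 i b')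
          · rw [hinr]
            split_ifs
            · simp
            · exact hg l'
        · have hsub : bad g (fun x => (modif τ l d (Sum.elim fP fQ) x).map
            (Sum.map (c i) (id : L → L))) ⊆ ((bad g τ).erase l).map
              ⟨Sum.inr, Sum.inr_injective⟩ := by
            rintro (b' | l') hx
            · simp only [bad, Finset.mem_filter, Finset.mem_univ, true_and] at hx
              rw [hinl] at hx
              exact absurd (hw2 i b') hx
            · simp only [bad, Finset.mem_filter, Finset.mem_univ, true_and] at hx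
              rw [hinr] at hx
              simp only [Finset.mem_map, Finset.mem_erase, Function.Embedding.coeFn_mk,
                Sum.inr.injEq, exists_eq_right, bad, Finset.mem_filter, Finset.mem_univ, true_and]
              split_ifs at hx with h
              · simp at hx
              · exact ⟨h, hx⟩
          have h1 := Finset.card_le_card hsub
          rw [Finset.card_map, Finset.card_erase_of_mem hl] at h1
          omega
      have hres := hD (Option L) (fun y => match (cell y).bind (modif τ l d (Sum.elim fP fQ)) with
        | some (Sum.inl x) => Sum.inl x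
        | some (Sum.inr l') => Sum.inr (some l')
        | none => Sum.inr none) (by
          intro i
          refine (hcomp i).mono ?_
          intro u u' hu
          simp only [Function.comp]
          rcases hc : cell u with _ | a <;> rcases hc' : cell u' with _ | a' <;>
            simp only [hc, hc', Option.bind_none, Option.bind_some] at hu ⊢
          · rcases hm : modif τ l d (Sum.elim fP fQ) a' with _ | (x | l') <;>
              simp [hm] at hu ⊢
          · rcases hm : modif τ l d (Sum.elim fP fQ) a with _ | (x | l') <;>
              simp [hm] at hu ⊢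
          · rcases hm : modif τ l d (Sum.elim fP fQ) a with _ | (x | l') <;>
            rcases hm' : modif τ l d (Sum.elim fP fQ) a' with _ | (x' | l'') <;>
              simp only [hm, hm', Option.map_some, Option.map_none, Sum.map_inl, Sum.map_inr,
                Option.some.injEq, Sum.inl.injEq, Sum.inr.injEq, reduceCtorEq, id] at hu ⊢ <;>
              exact hu)
      refine hres.mono ?_
      have hfun : ∀ u, (cell u).bind τ = Sum.elim (fun x => if x = d then some l else none) id
          (match (cell u).bind (modif τ l d (Sum.elim fP fQ)) with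
        | some (Sum.inl x) => Sum.inl x
        | some (Sum.inr l') => Sum.inr (some l')
        | none => Sum.inr none) := by
        intro u
        rcases hc : cell u with _ | a
        · simp
        · simp only [Option.bind_some]
          rcases hm : modif τ l d (Sum.elim fP fQ) a with _ | (x | l')
          · rw [modif_eq_none] at hm
            simp [hm.1]
          · rw [modif_eq_inl] at hm
            rcases hm with ⟨rfl, h2⟩ | ⟨h1, h2⟩
            · simp [h2]
            · have : x ≠ d := by
                rintro rfl
                rcases a with a | a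
                · exact hfPd a h2
                · exact hfQd a h2
              simp [h1, this]
          · rw [modif_eq_inr] at hm
            simp [hm.2]
      intro u u' hu
      rw [hfun u, hfun u', hu]

theorem stepZ [Nonempty A] [Fintype A] [Fintype R] [Fintype X] (c : R → X → A) (g : ℕ)
    (y : X → ℤ) (hy : ∀ i b, (g : ℤ) ∣ ∑ x ∈ Finset.univ.filter (fun x => c i x = b), y x) (d : X)
    (n' : ℕ) : ∃ n N : ℕ, ∀ (Y ιP ιQ : Type) [Fintype ιP] [Fintype ιQ] (Q : Set (Y → A))
      (cell : Y → Option (ιP ⊕ ιQ)), N ≤ Fintype.card ιP → N ≤ Fintype.card ιQ → RD c Q →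
      Zst g n Q cell → Zst (Int.gcd g (y d)) n' Q cell := by
  obtain ⟨n, N, h⟩ := claimZ c g y hy d n' n'
  refine ⟨n, N, ?_⟩
  intro Y ιP ιQ _ _ Q cell hP hQ hD hZ L _ τ hτ hg
  have := Fintype.ofFinite L
  exact h Y ιP ιQ Q cell hP hQ hD hZ L τ hτ hg ((bad_card_le g τ).trans hτ)

theorem allZ [Nonempty A] [Fintype A] [Fintype R] [Fintype X] (c : R → X → A)
    (hX : Fintype.card R * Fintype.card A < Fintype.card X) (g : ℕ) :
    ∀ n' : ℕ, ∃ n N : ℕ, ∀ (Y ιP ιQ : Type) [Fintype ιP] [Fintype ιQ] (Q : Set (Y → A))
      (cell : Y → Option (ιP ⊕ ιQ)), N ≤ Fintype.card ιP → N ≤ Fintype.card ιQ → RD c Q →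
      Zst g n Q cell → Zst 1 n' Q cell := by
  induction g using (wellFounded_dvdNotUnit (α := ℕ)).induction with
  | _ g ih =>
    intro n'
    by_cases hg : g = 1
    · subst hg
      exact ⟨n', 0, fun Y ιP ιQ _ _ Q cell _ _ _ h => h⟩
    · obtain ⟨y, hy, d, hd⟩ := exists_kernel c hX g hg
      have hdvd : DvdNotUnit (Int.gcd g (y d)) g := by
        rw [← dvd_and_not_dvd_iff]
        refine ⟨?_, ?_⟩
        · exact_mod_cast (Int.gcd_dvd_left (a := (g : ℤ)) (b := y d))
        · intro h
          apply hd
          have h1 : (g : ℤ) ∣ (Int.gcd g (y d) : ℤ) := by exact_mod_cast h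
          exact h1.trans (Int.gcd_dvd_right (a := (g : ℤ)) (b := y d))
      obtain ⟨n1, N1, h1⟩ := ih _ hdvd n'
      obtain ⟨n2, N2, h2⟩ := stepZ c g y hy d n1
      refine ⟨n2, max N1 N2, ?_⟩
      intro Y ιP ιQ _ _ Q cell hP hQ hD hZ
      exact h1 Y ιP ιQ Q cell ((le_max_left _ _).trans hP) ((le_max_left _ _).trans hQ) hD
        (h2 Y ιP ιQ Q cell ((le_max_right _ _).trans hP) ((le_max_right _ _).trans hQ) hD hZ)

/-- Lemma Z -/
theorem lemZ [Nonempty A] [Fintype A] [Fintype R] [Fintype X] (c : R → X → A)
    (hX : Fintype.card R * Fintype.card A < Fintype.card X) :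
    ∃ N : ℕ, ∀ (Y ιP ιQ : Type) [Fintype ιP] [Fintype ιQ] (Q : Set (Y → A))
      (cell : Y → Option (ιP ⊕ ιQ)), N ≤ Fintype.card ιP → N ≤ Fintype.card ιQ → RD c Q →
      (∀ (L : Type) [Finite L] (τ : ιP ⊕ ιQ → Option L), (∀ l, imb τ l = 0) →
        Res Q (fun y => (cell y).bind τ)) →
      ∀ p : ιP, Res Q (fun y => cell y = some (Sum.inl p)) := by
  obtain ⟨n, N, h⟩ := allZ c hX 0 1
  refine ⟨N, ?_⟩
  intro Y ιP ιQ _ _ Q cell hP hQ hD hbal p
  have h1 := h Y ιP ιQ Q cell hP hQ hD (fun L _ τ _ hτ => hbal L τ (fun l => by
    simpa using hτ l))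
  have h2 := h1 Unit (fun x => if x = Sum.inl p then some () else none) ?_ (fun l => by simp)
  · refine h2.mono ?_
    have hfun : ∀ u, (cell u = some (Sum.inl p)) = (((cell u).bind
        (fun x => if x = Sum.inl p then some () else none)) = some ()) := by
      intro u
      rcases hc : cell u with _ | a
      · simp
      · simp
    intro u u' hu
    simp only [hfun u, hfun u', hu]
  · unfold supp
    refine le_trans (Finset.card_le_card (t := {Sum.inl p}) ?_) (by simp)
    intro x
    simp only [Finset.mem_filter, Finset.mem_univ, true_and, Finset.mem_singleton]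
    intro hx
    by_contra hcon
    simp [hcon] at hx

end MPb06d56
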