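import Pool.Agent.Lib.MP_b06d56_al.Glue
import Pool.Agent.Lib.MP_b06d56_al.LemZ2

/-!
# The configuration on a cube: the origin is resolved
-/

open scoped Classical

namespace MPb06d56

variable {A : Type} {R X : Type}

theorem exists_pick {W I : Type} (P : I → W → Prop) (h : ∀ w i i', P i w → P i' w → i = i') :
    ∃ F : W → Option I, ∀ w i, F w = some i ↔ P i w := by
  refine ⟨fun w => if h : ∃ i, P i w then some h.choose else none, ?_⟩
  intro w i
  beta_reduce
  by_cases hw : ∃ i, P i w
  · rw [dif_pos hw, Option.some.injEq]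
    constructor
    · rintro rfl; exact hw.choose_spec
    · intro hi; exact h w _ _ hw.choose_spec hi
  · rw [dif_neg hw]
    simp only [reduceCtorEq, false_iff]
    exact fun hi => hw ⟨i, hi⟩

/-- zero vector -/
def zv {M : ℕ} : Fin M → Bool := fun _ => false
/-- unit vector -/
def ov {M : ℕ} (i : Fin M) : Fin M → Bool := fun j => decide (j = i)

theorem ov_ne_zv {M : ℕ} (i : Fin M) : ov i ≠ zv := by
  intro h
  have := congrFun h i
  simp [ov, zv] at this

theorem ov_inj {M : ℕ} {i j : Fin M} (h : ov i = ov j) : i = j := by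
  have := congrFun h i
  simpa [ov] using this

/-- the cells (without the third block) -/
def Pc {M : ℕ} : (Option (Fin M) ⊕ Fin M) → ((Fin M → Bool) × (Fin M → Bool)) → Prop
  | Sum.inl none, w => w.1 = zv ∧ w.2 = zv
  | Sum.inl (some i), w => w.1 = ov i ∧ w.2 ≠ zv
  | Sum.inr j, w => w.1 = zv ∧ w.2 = ov j

theorem Pc_disj {M : ℕ} (w : (Fin M → Bool) × (Fin M → Bool)) (i i' : Option (Fin M) ⊕ Fin M)
    (h : Pc i w) (h' : Pc i' w) : i = i' := by
  rcases i with (_ | i) | i <;> rcases i' with (_ | i') | i' <;> simp only [Pc] at h h' ⊢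
  · exact absurd (h'.1.symm.trans h.1) (ov_ne_zv i')
  · exact absurd (h'.2.symm.trans h.2) (ov_ne_zv i')
  · exact absurd (h.1.symm.trans h'.1) (ov_ne_zv i)
  · rw [ov_inj (h.1.symm.trans h'.1)]
  · exact absurd (h.1.symm.trans h'.1) (ov_ne_zv i)
  · exact absurd (h.2.symm.trans h'.2) (ov_ne_zv i)
  · exact absurd (h'.1.symm.trans h.1) (ov_ne_zv i')
  · rw [ov_inj (h.2.symm.trans h'.2)]

/-- the pieces -/
def Pp {M : ℕ} (e : Option (Fin M) → Fin M) : (Option (Fin M) × Bool) →
    ((Fin M → Bool) × (Fin M → Bool)) → Prop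
  | (none, false), w => w.1 = zv ∧ ∀ k, k ≠ e none → w.2 k = false
  | (none, true), _ => False
  | (some i, false), w => (∀ k, k ≠ i → w.1 k = false) ∧ w.2 = ov (e (some i))
  | (some i, true), w => w.1 = ov i ∧ ∃ k, k ≠ e (some i) ∧ w.2 k = true

theorem eq_zv_or_ov {M : ℕ} (v : Fin M → Bool) (j : Fin M) (h : ∀ k, k ≠ j → v k = false) :
    v = zv ∨ v = ov j := by
  rcases hv : v j with _ | _
  · left
    funext k
    by_cases hk : k = j
    · rw [hk, hv]; rfl
    · rw [h k hk]; rfl
  · right
    funext k
    by_cases hk : k = j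
    · rw [hk, hv]; simp [ov]
    · rw [h k hk]; simp [ov, hk]

theorem Pp_cover {M : ℕ} (e : Option (Fin M) → Fin M) (p : Option (Fin M))
    (w : (Fin M → Bool) × (Fin M → Bool)) :
    (∃ b, Pp e (p, b) w) ↔ (Pc (Sum.inl p) w ∨ Pc (Sum.inr (e p)) w) := by
  rw [Bool.exists_bool]
  rcases p with _ | i
  · simp only [Pp, Pc, or_false]
    constructor
    · rintro ⟨h1, h2⟩
      rcases eq_zv_or_ov _ _ h2 with h | h
      · exact Or.inl ⟨h1, h⟩
      · exact Or.inr ⟨h1, h⟩
    · rintro (⟨h1, h2⟩ | ⟨h1, h2⟩)
      · exact ⟨h1, fun k _ => by rw [h2]; rfl⟩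
      · exact ⟨h1, fun k hk => by rw [h2]; simp [ov, hk]⟩
  · simp only [Pp, Pc]
    constructor
    · rintro (⟨h1, h2⟩ | ⟨h1, k, hk, h2⟩)
      · rcases eq_zv_or_ov _ _ h1 with h | h
        · exact Or.inr ⟨h, h2⟩
        · exact Or.inl ⟨h, by rw [h2]; exact ov_ne_zv _⟩
      · refine Or.inl ⟨h1, fun h => ?_⟩
        rw [h] at h2
        simp [zv] at h2
    · rintro (⟨h1, h2⟩ | ⟨h1, h2⟩)
      · by_cases hk : ∃ k, k ≠ e (some i) ∧ w.2 k = true
        · exact Or.inr ⟨h1, hk⟩
        · push Not at hk
          have hk' : ∀ k, k ≠ e (some i) → w.2 k = false := by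
            intro k hk1
            have := hk k hk1
            simpa using this
          rcases eq_zv_or_ov _ _ hk' with h | h
          · exact absurd h h2
          · refine Or.inl ⟨fun k hk => ?_, h⟩
            rw [h1]; simp [ov, hk]
      · exact Or.inl ⟨fun k _ => by rw [h1]; rfl, h2⟩

theorem Pp_bool {M : ℕ} (e : Option (Fin M) → Fin M) (p : Option (Fin M)) (b b' : Bool)
    (w : (Fin M → Bool) × (Fin M → Bool)) (h : Pp e (p, b) w) (h' : Pp e (p, b') w) : b = b' := by
  rcases p with _ | i <;> rcases b with _ | _ <;> rcases b' with _ | _ <;>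
    simp only [Pp] at h h' ⊢
  · obtain ⟨_, k, hk, h3⟩ := h'
    rw [h.2] at h3
    simp [ov, hk] at h3
  · obtain ⟨_, k, hk, h3⟩ := h
    rw [h'.2] at h3
    simp [ov, hk] at h3

/-- the coordinates that a piece depends on -/
noncomputable def dl {M : ℕ} (e : Option (Fin M) → Fin M) : (Option (Fin M) × Bool) →
    ((Fin M → Bool) × (Fin M → Bool)) → ((Fin M → Option Bool) × (Fin M → Option Bool))
  | (some i, false), w => (era {i} w.1, era ∅ w.2)
  | (some i, true), w => (era ∅ w.1, era {e (some i)} w.2)
  | (none, _), w => (era ∅ w.1, era {e none} w.2)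

theorem Pp_dl {M : ℕ} (e : Option (Fin M) → Fin M) (i : Option (Fin M) × Bool)
    (w w' : (Fin M → Bool) × (Fin M → Bool)) (h : dl e i w = dl e i w') (h1 : Pp e i w) :
    Pp e i w' := by
  rcases i with ⟨_ | i, _ | _⟩ <;> simp only [dl, Prod.mk.injEq] at h <;>
    obtain ⟨ha, hb⟩ := h <;> rw [era_eq_iff rfl] at ha hb <;>
    simp only [Set.mem_empty_iff_false, not_false_eq_true, true_imp_iff,
      Set.mem_singleton_iff] at ha hb <;> simp only [Pp] at h1 ⊢
  · refine ⟨?_, fun k hk => ?_⟩
    · rw [← h1.1]; exact (funext ha).symm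
    · rw [← hb k hk]; exact h1.2 k hk
  · refine ⟨fun k hk => ?_, ?_⟩
    · rw [← ha k hk]; exact h1.1 k hk
    · rw [← h1.2]; exact (funext hb).symm
  · obtain ⟨h1, k, hk, h2⟩ := h1
    refine ⟨?_, k, hk, ?_⟩
    · rw [← h1]; exact (funext ha).symm
    · rw [← hb k hk]; exact h2

theorem balanced_matching {M : ℕ} {L : Type} (τ : Option (Fin M) ⊕ Fin M → Option L)
    (hM : 0 < M) (hτ : ∀ l, imb τ l = 0) : ∃ e : Option (Fin M) → Fin M,
      (∀ p, τ (Sum.inl p) ≠ none → τ (Sum.inr (e p)) = τ (Sum.inl p)) ∧
      (∀ p p', τ (Sum.inl p) ≠ none → τ (Sum.inl p') ≠ none → e p = e p' → p = p') ∧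
      (∀ q, τ (Sum.inr q) ≠ none → ∃ p, τ (Sum.inl p) ≠ none ∧ e p = q) := by
  let SP := {p : Option (Fin M) // τ (Sum.inl p) ≠ none}
  let SQ := {q : Fin M // τ (Sum.inr q) ≠ none}
  let f : SP → Option L := fun p => τ (Sum.inl p.1)
  let g : SQ → Option L := fun q => τ (Sum.inr q.1)
  have hfib : ∀ o : Option L, Nonempty ({a // f a = o} ≃ {b // g b = o}) := by
    intro o
    rcases o with _ | l
    · have h1 : IsEmpty {a // f a = none} := ⟨fun a => a.1.2 a.2⟩
      have h2 : IsEmpty {a // g a = none} := ⟨fun a => a.1.2 a.2⟩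
      exact ⟨Equiv.equivOfIsEmpty _ _⟩
    · refine ⟨Fintype.equivOfCardEq ?_⟩
      have h := hτ l
      unfold imb at h
      have h1 : Fintype.card {a // f a = some l} =
          (Finset.univ.filter (fun p => τ (Sum.inl p) = some l)).card := by
        rw [← Fintype.card_coe]
        refine Fintype.card_congr ⟨fun a => ⟨a.1.1, by simpa using a.2⟩,
          fun a => ⟨⟨a.1, ?_⟩, ?_⟩, fun a => rfl, fun a => rfl⟩
        · have := a.2
          simp only [Finset.mem_filter, Finset.mem_univ, true_and] at this
          rw [this]; simp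
        · have := a.2
          simp only [Finset.mem_filter, Finset.mem_univ, true_and] at this
          exact this
      have h2 : Fintype.card {a // g a = some l} =
          (Finset.univ.filter (fun p => τ (Sum.inr p) = some l)).card := by
        rw [← Fintype.card_coe]
        refine Fintype.card_congr ⟨fun a => ⟨a.1.1, by simpa using a.2⟩,
          fun a => ⟨⟨a.1, ?_⟩, ?_⟩, fun a => rfl, fun a => rfl⟩
        · have := a.2
          simp only [Finset.mem_filter, Finset.mem_univ, true_and] at this
          rw [this]; simp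
        · have := a.2
          simp only [Finset.mem_filter, Finset.mem_univ, true_and] at this
          exact this
      rw [h1, h2]
      omega
  let E : SP ≃ SQ := Equiv.ofFiberEquiv (fun o => (hfib o).some)
  have hE : ∀ p, g (E p) = f p := fun p => Equiv.ofFiberEquiv_map _ p
  refine ⟨fun p => if h : τ (Sum.inl p) ≠ none then (E ⟨p, h⟩).1 else ⟨0, hM⟩, ?_, ?_, ?_⟩
  · intro p hp
    beta_reduce
    rw [dif_pos hp]
    exact hE ⟨p, hp⟩
  · intro p p' hp hp' h
    beta_reduce at h
    rw [dif_pos hp, dif_pos hp'] at h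
    have := E.injective (Subtype.ext h)
    exact congrArg Subtype.val this
  · intro q hq
    refine ⟨(E.symm ⟨q, hq⟩).1, (E.symm ⟨q, hq⟩).2, ?_⟩
    beta_reduce
    rw [dif_pos (E.symm ⟨q, hq⟩).2]
    simp

theorem config [Nonempty A] [Fintype A] [Fintype R] [Fintype X] (c : R → X → A)
    (hX : Fintype.card R * Fintype.card A < Fintype.card X) :
    ∃ M : ℕ, ∀ (t m N : ℕ), T c t m → 2 + m * m ≤ N →
      ∀ (Q : Set ((Fin M ⊕ Fin M ⊕ Fin N → Bool) → A)), RD c Q → RT (t + 1) Q →
        (∀ i, Res Q (fun y => era {i} y)) → Res Q (fun y => y = fun _ => false) := by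
  obtain ⟨NZ, hNZ⟩ := lemZ c hX
  refine ⟨NZ + 1, ?_⟩
  generalize hM : NZ + 1 = M
  intro t m N hT hN Q hD hR hJ
  let Y := Fin M ⊕ Fin M ⊕ Fin N → Bool
  let ω : Y → (Fin M → Bool) × (Fin M → Bool) := fun y =>
    (fun i => y (Sum.inl i), fun i => y (Sum.inr (Sum.inl i)))
  let κ : Y → Fin N → Bool := fun y k => y (Sum.inr (Sum.inr k))
  obtain ⟨F, hF⟩ := exists_pick (Pc (M := M)) Pc_disj
  let cell : Y → Option (Option (Fin M) ⊕ Fin M) := fun y =>
    if κ y = (fun _ => false) then F (ω y) else none
  have key := hNZ Y (Option (Fin M)) (Fin M) Q cell (by simp; omega) (by simp; omega) hD ?_ none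
  · refine key.mono ?_
    have hfun : ∀ y : Y, (y = fun _ => false) = (cell y = some (Sum.inl none)) := by
      intro y
      simp only [cell, eq_iff_iff]
      constructor
      · rintro rfl
        rw [if_pos rfl, hF]
        exact ⟨rfl, rfl⟩
      · intro h
        split_ifs at h with h1
        rw [hF] at h
        obtain ⟨h2, h3⟩ := h
        funext i
        rcases i with i | i | i
        · exact congrFun h2 i
        · exact congrFun h3 i
        · exact congrFun h1 i
    intro y y' hy
    rw [hfun y, hfun y']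
    exact hy
  · intro L _ τ hτ
    obtain ⟨e, he1, he2, he3⟩ := balanced_matching τ (by omega) hτ
    -- the pieces
    obtain ⟨F0, hF0⟩ := exists_pick
      (fun (i : Option (Fin M) × Bool) w => τ (Sum.inl i.1) ≠ none ∧ Pp e i w) (by
        rintro w ⟨p, b⟩ ⟨p', b'⟩ ⟨h1, h2⟩ ⟨h1', h2'⟩
        simp only at h1 h1'
        have hc := (Pp_cover e p w).1 ⟨b, h2⟩
        have hc' := (Pp_cover e p' w).1 ⟨b', h2'⟩
        have hpp : p = p' := by
          rcases hc with hc | hc <;> rcases hc' with hc' | hc'
          · have := Pc_disj w _ _ hc hc'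
            simpa using this
          · have := Pc_disj w _ _ hc hc'
            simp at this
          · have := Pc_disj w _ _ hc hc'
            simp at this
          · have := Pc_disj w _ _ hc hc'
            exact he2 p p' h1 h1' (by simpa using this)
        subst hpp
        rw [Pp_bool e p b b' w h2 h2'])
    have hres := glue hT hD hR (ι := Fin N) (by simpa using hN) ω κ ?_ F0 (dl e) ?_ ?_
    · refine hres.mono ?_
      have hfun : ∀ y, (cell y).bind τ =
          ((F0 (ω y)).map (fun i => (i, κ y))).bind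
            (fun s => if s.2 = (fun _ => false) then τ (Sum.inl s.1.1) else none) := by
        intro y
        by_cases hk : κ y = (fun _ => false)
        · simp only [cell, hk, if_true]
          rcases h0 : F0 (ω y) with _ | ⟨p, b⟩
          · simp only [Option.map_none, Option.bind_none]
            rcases h1 : F (ω y) with _ | (p | q)
            · rfl
            · simp only [Option.bind_some]
              by_contra hne
              rw [hF] at h1
              obtain ⟨b, hb⟩ := (Pp_cover e p (ω y)).2 (Or.inl h1)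
              have := (hF0 (ω y) (p, b)).2 ⟨hne, hb⟩
              rw [h0] at this
              simp at this
            · simp only [Option.bind_some]
              by_contra hne
              obtain ⟨p, hp, rfl⟩ := he3 q hne
              rw [hF] at h1
              obtain ⟨b, hb⟩ := (Pp_cover e p (ω y)).2 (Or.inr h1)
              have := (hF0 (ω y) (p, b)).2 ⟨hp, hb⟩
              rw [h0] at this
              simp at this
          · simp only [Option.map_some, Option.bind_some, if_true]
            rw [hF0] at h0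
            rcases (Pp_cover e p (ω y)).1 ⟨b, h0.2⟩ with h | h
            · rw [← hF] at h
              rw [h]
              rfl
            · rw [← hF] at h
              rw [h]
              exact he1 p h0.1
        · simp only [cell, hk, if_false]
          rcases h0 : F0 (ω y) with _ | ⟨p, b⟩ <;> simp [hk]
      intro y y' hy
      rw [hfun y, hfun y', hy]
    · intro i
      refine (hJ (Sum.inr (Sum.inr i))).mono ?_
      intro y y' hy
      rw [era_eq_iff rfl] at hy
      simp only [Set.mem_singleton_iff] at hy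
      rw [Prod.mk.injEq, era_eq_iff rfl]
      refine ⟨?_, ?_⟩
      · simp only [ω, Prod.mk.injEq]
        exact ⟨funext fun j => hy _ (by simp), funext fun j => hy _ (by simp)⟩
      · intro j hj
        exact hy _ (by simpa using hj)
    · rintro ⟨p, b⟩
      have hbeta : ∀ j : Fin M, Res Q (fun y : Y => ((era ∅ (ω y).1, era {j} (ω y).2), κ y)) := by
        intro j
        refine (hJ (Sum.inr (Sum.inl j))).mono ?_
        intro y y' hy
        rw [era_eq_iff rfl] at hy
        simp only [Set.mem_singleton_iff] at hy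
        rw [Prod.mk.injEq, Prod.mk.injEq, era_eq_iff rfl, era_eq_iff rfl]
        refine ⟨⟨?_, ?_⟩, ?_⟩
        · intro k _; exact hy _ (by simp)
        · intro k hk; exact hy _ (by simpa using hk)
        · funext k; exact hy _ (by simp)
      have halpha : ∀ j : Fin M, Res Q (fun y : Y => ((era {j} (ω y).1, era ∅ (ω y).2), κ y)) := by
        intro j
        refine (hJ (Sum.inl j)).mono ?_
        intro y y' hy
        rw [era_eq_iff rfl] at hy
        simp only [Set.mem_singleton_iff] at hy
        rw [Prod.mk.injEq, Prod.mk.injEq, era_eq_iff rfl, era_eq_iff rfl]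
        refine ⟨⟨?_, ?_⟩, ?_⟩
        · intro k hk; exact hy _ (by simpa using hk)
        · intro k _; exact hy _ (by simp)
        · funext k; exact hy _ (by simp)
      rcases p with _ | i <;> rcases b with _ | _
      · exact hbeta _
      · exact hbeta _
      · exact halpha _
      · exact hbeta _
    · intro i w w' h
      rw [hF0, hF0]
      exact ⟨fun h1 => ⟨h1.1, Pp_dl e i w w' h h1.2⟩, fun h1 => ⟨h1.1, Pp_dl e i w' w h.symm h1.2⟩⟩

end MPb06d56
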