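import Pool.Agent.Lib.MP_b06d56_al.Small

/-!
# Growth rates: linear or polylogarithmic
-/

open scoped Classical

namespace MPb06d56

variable {A : Type}

/-- `S` is closed under all operations in `F`, acting coordinatewise on `A^Y` -/
def Closed (F : Set (Σ n : ℕ, (Fin n → A) → A)) {Y : Type} (S : Set (Y → A)) : Prop :=
  ∀ o ∈ F, ∀ v : Fin o.1 → Y → A, (∀ j, v j ∈ S) → (fun y => o.2 (fun j => v j y)) ∈ S

/-- `G` generates `A^Y` -/
def Gen (F : Set (Σ n : ℕ, (Fin n → A) → A)) {Y : Type} (G : Set (Y → A)) : Prop :=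
  ∀ S : Set (Y → A), G ⊆ S → Closed F S → S = Set.univ

/-- the growth rate `d_A(n)`: the least cardinality of a generating set of `A^n` -/
noncomputable def growth (F : Set (Σ n : ℕ, (Fin n → A) → A)) (n : ℕ) : ℕ :=
  sInf {k | ∃ G : Finset (Fin n → A), G.card = k ∧ Gen F (G : Set (Fin n → A))}

theorem growth_spec [Finite A] (F : Set (Σ n : ℕ, (Fin n → A) → A)) (n : ℕ) :
    ∃ G : Finset (Fin n → A), G.card = growth F n ∧ Gen F (G : Set (Fin n → A)) := by
  have := Fintype.ofFinite A
  have hne : {k | ∃ G : Finset (Fin n → A), G.card = k ∧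
      Gen F (G : Set (Fin n → A))}.Nonempty := by
    refine ⟨_, Finset.univ, rfl, ?_⟩
    intro S hS _
    rw [Finset.coe_univ] at hS
    exact Set.univ_subset_iff.1 hS
  exact Nat.sInf_mem hne

theorem growth_le [Finite A] [Nonempty A] (F : Set (Σ n : ℕ, (Fin n → A) → A)) (n : ℕ) {Y : Type}
    (G : Finset (Y → A)) (hG : Gen F (G : Set (Y → A))) (e : Fin n → Y)
    (he : Function.Injective e) : growth F n ≤ G.card := by
  have h : Gen F ((G.image (fun f => f ∘ e) : Finset (Fin n → A)) : Set (Fin n → A)) := by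
    intro S hS hc
    have h1 := hG {f | f ∘ e ∈ S} ?_ ?_
    · rw [Set.eq_univ_iff_forall]
      intro f
      have h2 : Function.extend e f (fun _ => Classical.arbitrary A) ∈
          {f : Y → A | f ∘ e ∈ S} := by rw [h1]; trivial
      have h3 : Function.extend e f (fun _ => Classical.arbitrary A) ∘ e ∈ S := h2
      rw [Function.extend_comp he] at h3
      exact h3
    · intro f hf
      apply hS
      simp only [Finset.coe_image, Set.mem_image]
      exact ⟨f, hf, rfl⟩
    · intro o ho v hv
      exact hc o ho (fun j => v j ∘ e) hv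
  refine le_trans (Nat.sInf_le ⟨_, rfl, h⟩) Finset.card_image_le

/-- from generators to the rule `(D)` -/
theorem Gen.rule {F : Set (Σ n : ℕ, (Fin n → A) → A)} {X Y : Type} {G : Set (X → A)}
    (hG : Gen F G) {Q : Set (Y → A)} (hQ : Closed F Q) (Ψ : Y → X)
    (h : ∀ f ∈ G, f ∘ Ψ ∈ Q) (f : X → A) : f ∘ Ψ ∈ Q := by
  have h1 := hG {f | f ∘ Ψ ∈ Q} h (fun o ho v hv => hQ o ho (fun j => v j ∘ Ψ) hv)
  have h2 : f ∈ {f | f ∘ Ψ ∈ Q} := by rw [h1]; trivial
  exact h2

theorem Gen.rd {F : Set (Σ n : ℕ, (Fin n → A) → A)} {X R X0 : Type}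
    (e : X0 ≃ X ⊕ A) (c : R → X0 → A) (hG : Gen F (Set.range c)) {Y : Type} {Q : Set (Y → A)}
    (hQ : Closed F Q) : RD (fun i x => c i (e.symm (Sum.inl x))) Q := by
  intro L θ hθ g
  have h := hG.rule hQ (fun y => e.symm (Sum.map id (g ∘ Sum.inr) (θ y))) ?_
    (fun x => Sum.elim (g ∘ Sum.inl) id (e x))
  · convert h using 1
    funext y
    simp only [Function.comp, Equiv.apply_symm_apply]
    rcases θ y with x | l <;> simp
  · rintro f ⟨i, rfl⟩
    have h2 := hθ i (Sum.elim id (fun l => c i (e.symm (Sum.inr (g (Sum.inr l))))))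
    convert h2 using 1
    funext y
    simp only [Function.comp]
    rcases θ y with x | l <;> simp

theorem exists_row [Fintype A] {R X : Type} [Fintype R] [Fintype X] (c : R → X → A)
    (hX : Fintype.card R * Fintype.card A < Fintype.card X) :
    ∃ x0 : X, ∃ j : R → X, ∀ i, j i ≠ x0 ∧ c i (j i) = c i x0 := by
  by_contra hcon
  have h : ∀ x0 : X, ∃ i, ∀ x, x ≠ x0 → c i x ≠ c i x0 := by
    intro x0
    by_contra h
    push Not at h
    choose j hj using h
    exact hcon ⟨x0, j, hj⟩
  choose p hp using h
  have hinj : Function.Injective (fun x0 => (p x0, c (p x0) x0)) := by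
    intro x x' hxx
    simp only [Prod.mk.injEq] at hxx
    by_contra hne
    have := hp x' x hne
    rw [hxx.1] at hxx
    exact this hxx.2
  have := Fintype.card_le_of_injective _ hinj
  rw [Fintype.card_prod] at this
  omega

theorem RD.rt [Nonempty A] [Fintype A] {R X : Type} [Fintype R] [Fintype X] (c : R → X → A)
    (hX : Fintype.card R * Fintype.card A < Fintype.card X) {Y : Type} {Q : Set (Y → A)}
    (hD : RD c Q) : RT (Fintype.card R) Q := by
  intro L F l0 S hS hl0 hm
  obtain ⟨x0, j, hj⟩ := exists_row c hX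
  obtain ⟨e⟩ : Nonempty ((Finset.univ.image j : Finset X) ↪ S) := by
    apply Function.Embedding.nonempty_of_card_le
    rw [Fintype.card_coe, Fintype.card_coe]
    exact (Finset.card_image_le.trans (by simp)).trans hS
  let η : L → X ⊕ L := fun l => if l = l0 then Sum.inl x0 else
    if h : ∃ z, (e z : L) = l then Sum.inl h.choose.1 else Sum.inr l
  have hη0 : η l0 = Sum.inl x0 := if_pos rfl
  have hηe : ∀ z, η (e z) = Sum.inl z.1 := by
    intro z
    have h1 : (e z : L) ≠ l0 := fun h => hl0 (h ▸ (e z).2)
    have h2 : ∃ z', (e z' : L) = e z := ⟨z, rfl⟩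
    simp only [η, if_neg h1, dif_pos h2]
    have := e.injective (Subtype.ext h2.choose_spec)
    rw [this]
  have hηn : ∀ l, l ≠ l0 → (¬ ∃ z, (e z : L) = l) → η l = Sum.inr l := by
    intro l h1 h2
    simp only [η, if_neg h1, dif_neg h2]
  have hηinj : ∀ l l', η l = η l' → l = l' := by
    have hx0 : ∀ z : (Finset.univ.image j : Finset X), z.1 ≠ x0 := by
      intro z hz
      obtain ⟨i, _, hi⟩ := Finset.mem_image.1 z.2
      exact (hj i).1 (hi.trans hz)
    intro l l' h
    by_cases h1 : l = l0 <;> by_cases h2 : l' = l0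
    · rw [h1, h2]
    · by_cases h3 : ∃ z, (e z : L) = l'
      · obtain ⟨z, rfl⟩ := h3
        rw [h1, hη0, hηe, Sum.inl.injEq] at h
        exact absurd h.symm (hx0 z)
      · rw [h1, hη0, hηn l' h2 h3] at h
        simp at h
    · by_cases h3 : ∃ z, (e z : L) = l
      · obtain ⟨z, rfl⟩ := h3
        rw [h2, hη0, hηe, Sum.inl.injEq] at h
        exact absurd h (hx0 z)
      · rw [h2, hη0, hηn l h1 h3] at h
        simp at h
    · by_cases h3 : ∃ z, (e z : L) = l <;> by_cases h4 : ∃ z, (e z : L) = l'
      · obtain ⟨z, rfl⟩ := h3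
        obtain ⟨z', rfl⟩ := h4
        rw [hηe, hηe, Sum.inl.injEq] at h
        rw [Subtype.ext h]
      · obtain ⟨z, rfl⟩ := h3
        rw [hηe, hηn l' h2 h4] at h
        simp at h
      · obtain ⟨z, rfl⟩ := h4
        rw [hηe, hηn l h1 h3] at h
        simp at h
      · rw [hηn l h1 h3, hηn l' h2 h4] at h
        simpa using h
  refine (hD L (η ∘ F) ?_).mono (fun y y' hy => hηinj _ _ hy)
  intro i
  have hji : j i ∈ Finset.univ.image j := Finset.mem_image_of_mem _ (Finset.mem_univ _)
  refine (hm (e ⟨j i, hji⟩) (e ⟨j i, hji⟩).2).mono ?_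
  have hfac : ∀ l, Sum.map (c i) id (η l) = Sum.map (c i) id (η (merge (e ⟨j i, hji⟩ : L) l0 l)) := by
    intro l
    unfold merge
    split_ifs with h
    · rw [h, hηe, hη0]
      simp [(hj i).2]
    · rfl
  intro y y' hy
  simp only [Function.comp]
  rw [hfac (F y), hfac (F y'), hy]

/-- the juntas generate -/
theorem juntas [Finite A] [Nonempty A] {R X : Type} {c : R → X → A} {t M : ℕ}
    (hT : T c t M) {N : ℕ} (hN : 0 < N)
    {Q : Set ((Fin N → Bool) → A)} (hD : RD c Q) (hR : RT t Q)
    (hj : ∀ (s : Fin M → Fin N) (g : (Fin M → Bool) → A), (fun u => g (u ∘ s)) ∈ Q) :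
    Q = Set.univ := by
  have key : ∀ D : Finset (Fin N), Res Q (fun u : Fin N → Bool => fun j => if j ∈ D then u j
      else false) := by
    intro D
    induction D using Finset.strongInduction with
    | H D ih =>
      by_cases hDM : D.card ≤ M
      · obtain ⟨s, hs⟩ : ∃ s : Fin M → Fin N, ∀ j ∈ D, ∃ i, s i = j := by
          obtain ⟨e⟩ : Nonempty (D ↪ Fin M) := by
            apply Function.Embedding.nonempty_of_card_le
            simpa using hDM
          refine ⟨fun i => if h : ∃ d, e d = i then h.choose.1 else ⟨0, hN⟩, ?_⟩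
          intro j hj
          refine ⟨e ⟨j, hj⟩, ?_⟩
          have h : ∃ d, e d = e ⟨j, hj⟩ := ⟨_, rfl⟩
          beta_reduce
          rw [dif_pos h]
          have := e.injective h.choose_spec
          rw [this]
        have hres : Res Q (fun u : Fin N → Bool => u ∘ s) := fun g => hj s g
        refine hres.mono ?_
        intro u u' hu
        funext j
        by_cases hjD : j ∈ D
        · obtain ⟨i, rfl⟩ := hs j hjD
          simp only [hjD, if_true]
          exact congrFun hu i
        · simp [hjD]
      · push Not at hDM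
        obtain ⟨D', hD', hcD⟩ := Finset.exists_subset_card_eq hDM.le
        let e : Fin M → Fin N := fun j => (D'.equivFinOfCardEq hcD).symm j
        have he : Function.Injective e := by
          intro a b hab
          simpa [e] using hab
        have heD : ∀ j, e j ∈ D := fun j => hD' ((D'.equivFinOfCardEq hcD).symm j).2
        refine hT.use hD hR (fun u : Fin N → Bool => fun j => if j ∈ D ∧ j ∉ Set.range e then u j
          else false) (fun i u => u (e i)) ?_ _ ?_
        · intro i
          refine ⟨_, _, ih (D.erase (e i)) (Finset.erase_ssubset (heD i)), ?_⟩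
          intro u u' hu
          have hu' : ∀ j ∈ D, j ≠ e i → u j = u' j := by
            intro j hj hji
            have := congrFun hu j
            simpa [hj, hji] using this
          refine ⟨?_, ?_⟩
          · funext j
            by_cases h : j ∈ D ∧ j ∉ Set.range e
            · simp only [h, not_false_eq_true, and_self, if_true]
              exact hu' j h.1 (fun h' => h.2 ⟨i, h'.symm⟩)
            · simp only [h, if_false]
          · intro j hj
            exact hu' _ (heD j) (fun h => hj (he h))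
        · intro u u' h1 h2
          funext j
          by_cases hjD : j ∈ D
          · simp only [hjD, if_true]
            by_cases hr : j ∈ Set.range e
            · obtain ⟨i, rfl⟩ := hr
              exact h2 i
            · have := congrFun h1 j
              simpa [hjD, hr] using this
          · simp [hjD]
  rw [Set.eq_univ_iff_forall]
  intro f
  have := key Finset.univ (fun u => f u)
  convert this using 1
  funext u
  simp [Function.comp]

theorem clog_le (n : ℕ) (hn : 2 ≤ n) : (Nat.clog 2 n : ℝ) ≤ 2 / Real.log 2 * Real.log n := by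
  have h1 : 2 ^ (Nat.clog 2 n).pred < n := Nat.pow_pred_clog_lt_self (by norm_num) (by omega)
  have h2 : (Nat.clog 2 n).pred * Real.log 2 ≤ Real.log n := by
    rw [← Real.log_pow]
    apply Real.log_le_log (by positivity)
    exact_mod_cast h1.le
  have h3 : Real.log 2 ≤ Real.log n := by
    apply Real.log_le_log (by norm_num)
    exact_mod_cast hn
  have h4 : (0 : ℝ) < Real.log 2 := Real.log_pos (by norm_num)
  have h5 : (Nat.clog 2 n : ℝ) ≤ (Nat.clog 2 n).pred + 1 := by
    have : Nat.clog 2 n ≤ (Nat.clog 2 n).pred + 1 := by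
      rw [Nat.pred_eq_sub_one]; omega
    exact_mod_cast this
  have h6 : (Nat.clog 2 n : ℝ) * Real.log 2 ≤ 2 * Real.log n := by nlinarith
  rw [div_mul_eq_mul_div, le_div_iff₀ h4]
  exact h6

/-- **Dichotomy.** -/
theorem dichotomy [Finite A] [Nonempty A] (F : Set (Σ n : ℕ, (Fin n → A) → A)) (n0 : ℕ)
    (h0 : Nat.card A * (growth F n0 + 1) < n0) :
    ∃ (C : ℝ) (k : ℕ), ∀ n : ℕ, 2 ≤ n → (growth F n : ℝ) ≤ C * Real.log n ^ k := by
  have := Fintype.ofFinite A
  rw [Nat.card_eq_fintype_card] at h0
  obtain ⟨G, hGc, hG⟩ := growth_spec F n0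
  -- index types
  let R := G
  let c : R → Fin n0 → A := fun f => f.1
  have hRc : Fintype.card R = growth F n0 := by
    rw [← hGc]; exact Fintype.card_coe G
  have hrange : Set.range c = (G : Set (Fin n0 → A)) := by
    ext f
    simp [c, R]
  have hGen : Gen F (Set.range c) := by rw [hrange]; exact hG
  have hna : Fintype.card A ≤ n0 := by nlinarith
  let X := Fin (n0 - Fintype.card A)
  obtain ⟨e⟩ : Nonempty (Fin n0 ≃ X ⊕ A) := by
    refine ⟨Fintype.equivOfCardEq ?_⟩
    simp only [X, Fintype.card_sum, Fintype.card_fin]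
    omega
  have hX : Fintype.card R * Fintype.card A < Fintype.card X := by
    simp only [X, Fintype.card_fin, hRc]
    have : Fintype.card A * (growth F n0 + 1) = growth F n0 * Fintype.card A + Fintype.card A := by
      ring
    omega
  let c' : R → X → A := fun i x => c i (e.symm (Sum.inl x))
  obtain ⟨M, hM⟩ := T_all c' hX (Fintype.card R)
  -- constants
  refine ⟨(2 / Real.log 2) ^ M * (Fintype.card A : ℝ) ^ (2 ^ M), M, ?_⟩
  intro n hn
  set N := Nat.clog 2 n with hNdef
  have hN : 0 < N := Nat.clog_pos (by norm_num) hn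
  obtain ⟨emb⟩ : Nonempty (Fin n ↪ (Fin N → Bool)) := by
    apply Function.Embedding.nonempty_of_card_le
    simp only [Fintype.card_fin, Fintype.card_pi, Fintype.card_bool, Finset.prod_const,
      Finset.card_univ]
    exact Nat.le_pow_clog (by norm_num) n
  let GN : Finset ((Fin N → Bool) → A) := (Finset.univ : Finset ((Fin M → Fin N) ×
    ((Fin M → Bool) → A))).image (fun p => fun u => p.2 (u ∘ p.1))
  have hGN : Gen F (GN : Set ((Fin N → Bool) → A)) := by
    intro Q hQ hc
    have hD : RD c' Q := hGen.rd e c hc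
    have hR := (RD.rt c' hX hD).mono (Nat.le_succ _)
    refine juntas hM hN hD hR ?_
    intro s g
    apply hQ
    simp only [GN, Finset.coe_image, Finset.coe_univ, Set.image_univ, Set.mem_range, Prod.exists]
    exact ⟨s, g, rfl⟩
  have h1 := growth_le F n GN hGN emb emb.injective
  have h2 : GN.card ≤ N ^ M * Fintype.card A ^ (2 ^ M) := by
    refine Finset.card_image_le.trans ?_
    simp [Fintype.card_prod]
  have h3 : (growth F n : ℝ) ≤ (N : ℝ) ^ M * (Fintype.card A : ℝ) ^ (2 ^ M) := by
    exact_mod_cast h1.trans h2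
  have h4 := clog_le n hn
  calc (growth F n : ℝ) ≤ (N : ℝ) ^ M * (Fintype.card A : ℝ) ^ (2 ^ M) := h3
    _ ≤ (2 / Real.log 2 * Real.log n) ^ M * (Fintype.card A : ℝ) ^ (2 ^ M) := by
      gcongr
    _ = (2 / Real.log 2) ^ M * (Fintype.card A : ℝ) ^ (2 ^ M) * Real.log n ^ M := by
      rw [mul_pow]; ring

end MPb06d56
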