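import Pool.Agent.Lib.MP_b06d56_al.Reg

/-!
# Gluing lemma
-/

open scoped Classical

namespace MPb06d56

variable {A : Type} {R X : Type}

/-- mixed information -/
noncomputable def mix {W K ι I Δ : Type} (F0 : W → Option I) (δ : I → W → Δ) (ε : I → Option ι)
    (w : W) (k : ι → K) : Option (I × ((Δ × (ι → K)) ⊕ (W × (ι → Option K)))) :=
  (F0 w).map (fun i => (i, match ε i with
    | none => Sum.inl (δ i w, k)
    | some c => Sum.inr (w, era {c} k)))

theorem glue_mix [Nonempty A] {c : R → X → A} {t m : ℕ} (hT : T c t m) {Y : Type} {Q : Set (Y → A)}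
    (hD : RD c Q) (hR : RT (t + 1) Q) {W K ι I Δ : Type} [Finite W] [Finite K] [Fintype ι]
    [Fintype I] [Finite Δ]
    (hι : 2 + m * m ≤ Fintype.card ι) (ω : Y → W) (κ : Y → ι → K)
    (hJ : ∀ i : ι, Res Q (fun y => (ω y, era {i} (κ y))))
    (F0 : W → Option I) (δ : I → W → Δ) (hδ : ∀ i, Res Q (fun y => (δ i (ω y), κ y)))
    (hδ' : ∀ i w w', δ i w = δ i w' → (F0 w = some i ↔ F0 w' = some i)) (ε : I → Option ι) :
    Res Q (fun y => mix F0 δ ε (ω y) (κ y)) := by
  obtain ⟨n, hn⟩ : ∃ n, (Finset.univ.filter (fun i => ε i = none)).card = n := ⟨_, rfl⟩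
  have hmι : m ≤ (Finset.univ : Finset ι).card := by
    rw [Finset.card_univ]
    nlinarith
  have hι0 : 0 < Fintype.card ι := by omega
  obtain ⟨i0⟩ := Fintype.card_pos_iff.1 hι0
  obtain ⟨e, he⟩ : ∃ e : Fin m → ι, Function.Injective e := by
    obtain ⟨B', hB', hcB⟩ := Finset.exists_subset_card_eq hmι
    refine ⟨fun j => (B'.equivFinOfCardEq hcB).symm j, ?_⟩
    intro a b hab
    simpa using hab
  induction n generalizing ε with
  | zero =>
    have h0 : ∀ i, ε i ≠ none := by
      intro i hi
      have : i ∈ Finset.univ.filter (fun i => ε i = none) := by simp [hi]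
      rw [Finset.card_eq_zero.1 hn] at this
      simp at this
    refine (reg hT hD hR hι ω κ hJ (fun w => ((F0 w).bind ε).getD i0)).mono ?_
    intro y y' hy
    simp only [Prod.mk.injEq] at hy
    obtain ⟨h1, h2⟩ := hy
    rw [h1] at h2
    simp only [mix, h1]
    rcases h3 : F0 (ω y') with _ | i
    · rfl
    · rcases h4 : ε i with _ | d
      · exact absurd h4 (h0 i)
      · simp only [h3, Option.bind_some, h4, Option.getD_some] at h2
        simp [h4, h2]
  | succ n ih =>
    obtain ⟨j0, hj0⟩ : ∃ j0, ε j0 = none := by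
      have : (Finset.univ.filter (fun i => ε i = none)).Nonempty := by
        rw [← Finset.card_pos]; omega
      obtain ⟨j, hj⟩ := this
      exact ⟨j, by simpa using hj⟩
    have hupd : ∀ d, Res Q (fun y => mix F0 δ (Function.update ε j0 (some d)) (ω y) (κ y)) := by
      intro d
      refine ih _ ?_
      have : (Finset.univ.filter (fun i => Function.update ε j0 (some d) i = none)) =
          (Finset.univ.filter (fun i => ε i = none)).erase j0 := by
        ext i
        by_cases hi : i = j0
        · subst hi; simp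
        · simp [hi]
      rw [this, Finset.card_erase_of_mem (by simp [hj0]), hn]
      omega
    refine DT hT hD hR (fun y => F0 (ω y) = some j0)
      (fun y => (δ j0 (ω y), era (Set.range e) (κ y)))
      (fun a y => κ y (e a))
      (fun y => mix F0 δ ε (ω y) (κ y)) ?_ ?_ _ ?_ ?_
    · refine ⟨_, _, hδ j0, ?_⟩
      intro y y' hy
      simp only [Prod.mk.injEq] at hy
      obtain ⟨h1, h2⟩ := hy
      exact ⟨hδ' _ _ _ h1, fun _ => ⟨by rw [h1, h2], fun j => by rw [h2]⟩⟩
    · intro a
      refine ⟨_, _, hupd (e a), ?_⟩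
      intro y y' hy
      simp only [mix] at hy
      rcases h1 : F0 (ω y) with _ | i <;> rcases h2 : F0 (ω y') with _ | i' <;>
        simp only [h1, h2, Option.map_none, Option.map_some, reduceCtorEq, Option.some.injEq,
          Prod.mk.injEq] at hy ⊢
      · simp [mix, h1, h2]
      · obtain ⟨rfl, h3⟩ := hy
        by_cases hi : i = j0
        · subst hi
          simp only [Function.update_self, Sum.inr.injEq, Prod.mk.injEq] at h3
          obtain ⟨h3, h4⟩ := h3
          rw [era_eq_iff rfl] at h4
          simp only [true_and, not_true_eq_false, false_imp_iff, and_true, true_imp_iff]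
          refine ⟨⟨by rw [h3], ?_⟩, ?_⟩
          · rw [era_eq_iff rfl]
            intro j hj
            apply h4
            simp only [Set.mem_singleton_iff]
            rintro rfl
            exact hj ⟨a, rfl⟩
          · intro j hj
            apply h4
            simp only [Set.mem_singleton_iff]
            exact fun h => hj (he h)
        · simp only [Function.update_of_ne hi] at h3
          simp only [hi, iff_self, false_imp_iff, true_and, not_false_eq_true, true_imp_iff]
          simp only [mix, h1, h2, Option.map_some, Option.some.injEq, Prod.mk.injEq, true_and]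
          exact h3
    · intro y y' hr hr' hπ hκ
      simp only [Prod.mk.injEq] at hπ
      obtain ⟨h1, h2⟩ := hπ
      rw [era_eq_iff rfl] at h2
      have hkk : κ y = κ y' := by
        funext j
        by_cases hj : j ∈ Set.range e
        · obtain ⟨a, rfl⟩ := hj
          exact hκ a
        · exact h2 j hj
      simp [mix, hr, hr', hj0, h1, hkk]
    · intro y y' _ _ h
      exact h

theorem glue [Nonempty A] {c : R → X → A} {t m : ℕ} (hT : T c t m) {Y : Type} {Q : Set (Y → A)}
    (hD : RD c Q) (hR : RT (t + 1) Q) {W K ι I Δ : Type} [Finite W] [Finite K] [Fintype ι]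
    [Fintype I] [Finite Δ]
    (hι : 2 + m * m ≤ Fintype.card ι) (ω : Y → W) (κ : Y → ι → K)
    (hJ : ∀ i : ι, Res Q (fun y => (ω y, era {i} (κ y))))
    (F0 : W → Option I) (δ : I → W → Δ) (hδ : ∀ i, Res Q (fun y => (δ i (ω y), κ y)))
    (hδ' : ∀ i w w', δ i w = δ i w' → (F0 w = some i ↔ F0 w' = some i)) :
    Res Q (fun y => (F0 (ω y)).map (fun i => (i, κ y))) := by
  refine (glue_mix hT hD hR hι ω κ hJ F0 δ hδ hδ' (fun _ => none)).mono ?_
  intro y y' hy
  simp only [mix] at hy
  rcases h1 : F0 (ω y) with _ | i <;> rcases h2 : F0 (ω y') with _ | i' <;>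
    simp_all

end MPb06d56
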