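import Pool.Agent.Lib.MP_b06d56_al.Basic

/-!
# From balanced assignments to single cells
-/

open scoped Classical

namespace MPb06d56

variable {A : Type} {R X : Type}

/-- imbalance of an assignment of labels to the cells (`inl`: positive, `inr`: negative) -/
noncomputable def imb {ιP ιQ L : Type} [Fintype ιP] [Fintype ιQ] (τ : ιP ⊕ ιQ → Option L)
    (l : L) : ℤ :=
  ((Finset.univ.filter (fun p : ιP => τ (Sum.inl p) = some l)).card : ℤ) -
    ((Finset.univ.filter (fun q : ιQ => τ (Sum.inr q) = some l)).card : ℤ)

/-- size of the support -/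
noncomputable def supp {ιP ιQ L : Type} [Fintype ιP] [Fintype ιQ] (τ : ιP ⊕ ιQ → Option L) : ℕ :=
  (Finset.univ.filter (fun x : ιP ⊕ ιQ => τ x ≠ none)).card

/-- all assignments of support at most `n` with imbalances divisible by `g` are resolved -/
def Zst (g n : ℕ) {Y ιP ιQ : Type} [Fintype ιP] [Fintype ιQ] (Q : Set (Y → A))
    (cell : Y → Option (ιP ⊕ ιQ)) : Prop :=
  ∀ (L : Type) [Finite L] (τ : ιP ⊕ ιQ → Option L), supp τ ≤ n → (∀ l, (g : ℤ) ∣ imb τ l) →
    Res Q (fun y => (cell y).bind τ)

theorem card_filter_map {α L L' : Type} [Fintype α] [Fintype L] (f : α → Option L) (φ : L → L')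
    (m : L') : (Finset.univ.filter (fun a => (f a).map φ = some m)).card =
      ∑ l ∈ Finset.univ.filter (fun l => φ l = m),
        (Finset.univ.filter (fun a => f a = some l)).card := by
  rw [← Finset.card_biUnion]
  · congr 1
    ext a
    simp only [Finset.mem_filter, Finset.mem_univ, true_and, Finset.mem_biUnion,
      Option.map_eq_some_iff]
    constructor
    · rintro ⟨l, h1, h2⟩; exact ⟨l, h2, h1⟩
    · rintro ⟨l, h1, h2⟩; exact ⟨l, h2, h1⟩
  · intro l _ l' _ hll'
    simp only [Function.onFun]
    rw [Finset.disjoint_left]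
    intro a ha ha'
    simp only [Finset.mem_filter, Finset.mem_univ, true_and] at ha ha'
    rw [ha] at ha'
    exact hll' (Option.some_injective _ ha')

theorem imb_map {ιP ιQ L L' : Type} [Fintype ιP] [Fintype ιQ] [Fintype L]
    (τ : ιP ⊕ ιQ → Option L) (φ : L → L') (m : L') :
    imb (fun x => (τ x).map φ) m = ∑ l ∈ Finset.univ.filter (fun l => φ l = m), imb τ l := by
  unfold imb
  rw [Finset.sum_sub_distrib, card_filter_map (fun p : ιP => τ (Sum.inl p)) φ m,
    card_filter_map (fun q : ιQ => τ (Sum.inr q)) φ m]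
  push_cast
  rfl

/-- choosing disjoint sets of prescribed sizes -/
theorem exists_choice {α L : Type} [Fintype α] [Fintype L] (U : Finset α) (n : L → ℕ)
    (h : ∑ l, n l ≤ U.card) : ∃ f : α → Option L, (∀ a, a ∉ U → f a = none) ∧
      ∀ l, (Finset.univ.filter (fun a => f a = some l)).card = n l := by
  obtain ⟨e⟩ : Nonempty ((Σ l, Fin (n l)) ↪ U) := by
    apply Function.Embedding.nonempty_of_card_le
    simpa using h
  refine ⟨fun a => if h : ∃ s, (e s : α) = a then some h.choose.1 else none, ?_, ?_⟩
  · intro a ha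
    apply dif_neg
    rintro ⟨s, rfl⟩
    exact ha (e s).2
  · intro l
    have : (Finset.univ.filter (fun a => (if h : ∃ s, (e s : α) = a then some h.choose.1 else none)
        = some l)) = Finset.univ.image (fun j : Fin (n l) => (e ⟨l, j⟩ : α)) := by
      ext a
      simp only [Finset.mem_filter, Finset.mem_univ, true_and, Finset.mem_image]
      constructor
      · intro h
        by_cases hs : ∃ s, (e s : α) = a
        · rw [dif_pos hs] at h
          have h1 := hs.choose_spec
          have h2 : hs.choose.1 = l := by simpa using h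
          rcases hc : hs.choose with ⟨l', j⟩
          rw [hc] at h1 h2
          simp only at h2
          subst h2
          exact ⟨j, h1⟩
        · rw [dif_neg hs] at h
          exact absurd h (by simp)
      · rintro ⟨j, rfl⟩
        have hs : ∃ s, (e s : α) = (e ⟨l, j⟩ : α) := ⟨_, rfl⟩
        rw [dif_pos hs]
        have h1 := hs.choose_spec
        have h2 := e.injective (Subtype.ext h1)
        rw [h2]
    rw [this, Finset.card_image_of_injective]
    · simp
    · intro a b hab
      have := e.injective (Subtype.ext hab)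
      simpa using this

/-- kernel vector -/
theorem exists_kernel [Fintype A] [Fintype R] [Fintype X] (c : R → X → A)
    (hX : Fintype.card R * Fintype.card A < Fintype.card X) (g : ℕ) (hg : g ≠ 1) :
    ∃ y : X → ℤ, (∀ i b, (g : ℤ) ∣ ∑ x ∈ Finset.univ.filter (fun x => c i x = b), y x) ∧
      ∃ d, ¬ (g : ℤ) ∣ y d := by
  have : Nontrivial (ZMod g) := ZMod.nontrivial_iff.2 hg
  let f : (X → ZMod g) →ₗ[ZMod g] (R × A → ZMod g) :=
    { toFun := fun y p => ∑ x ∈ Finset.univ.filter (fun x => c p.1 x = p.2), y x
      map_add' := by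
        intro u v
        funext p
        simp [Finset.sum_add_distrib]
      map_smul' := by
        intro u v
        funext p
        simp [Finset.mul_sum] }
  have hf : ¬ Function.Injective f := by
    intro h
    have := card_le_of_injective (ZMod g) f h
    rw [Fintype.card_prod] at this
    omega
  have hf' : ∃ y, f y = 0 ∧ y ≠ 0 := by
    by_contra hcon
    push Not at hcon
    apply hf
    rw [← LinearMap.ker_eq_bot, LinearMap.ker_eq_bot']
    intro y hy
    exact hcon y hy
  obtain ⟨y, hy, hy0⟩ := hf'
  obtain ⟨d, hd⟩ := Function.ne_iff.1 hy0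
  have hsur : ∀ x, ∃ z : ℤ, (z : ZMod g) = y x := fun x => ZMod.intCast_surjective (y x)
  choose z hz using hsur
  refine ⟨z, ?_, d, ?_⟩
  · intro i b
    rw [← CharP.intCast_eq_zero_iff (ZMod g) g]
    have := congrFun hy (i, b)
    simp only [f, LinearMap.coe_mk, AddHom.coe_mk, Pi.zero_apply] at this
    rw [← this]
    push_cast
    exact Finset.sum_congr rfl (fun x _ => hz x)
  · rw [← CharP.intCast_eq_zero_iff (ZMod g) g, hz]
    exact hd

/-- modified kernel vector with prescribed value -/
theorem exists_vec [Fintype X] (c : R → X → A) (g : ℕ)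
    (y : X → ℤ) (hy : ∀ i b, (g : ℤ) ∣ ∑ x ∈ Finset.univ.filter (fun x => c i x = b), y x) (d : X)
    (κ : ℤ) (hκ : (Int.gcd g (y d) : ℤ) ∣ κ) :
    ∃ y' : X → ℤ, y' d = κ ∧
      ∀ i b, (g : ℤ) ∣ ∑ x ∈ Finset.univ.filter (fun x => c i x = b), y' x := by
  obtain ⟨s, hs⟩ := hκ
  have hg := Int.gcd_eq_gcd_ab (g : ℤ) (y d)
  refine ⟨fun x => s * Int.gcdB g (y d) * y x + if x = d then s * Int.gcdA g (y d) * g else 0,
    ?_, ?_⟩
  · simp only [if_true]
    rw [hs, hg]
    ring
  · intro i b
    rw [Finset.sum_add_distrib, ← Finset.mul_sum]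
    apply dvd_add
    · exact Dvd.dvd.mul_left (hy i b) _
    · apply Finset.dvd_sum
      intro x _
      split_ifs
      · exact Dvd.intro_left _ rfl
      · simp

end MPb06d56
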