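import Pool.Agent.Lib.MP_b06d56_al.Basic

/-!
# Full step, regular choice of deleted coordinate
-/

open scoped Classical

namespace MPb06d56

variable {A : Type} {R X : Type}

/-- If all small restrictions of `F` are resolved, and the threshold rule holds, then all
restrictions are. -/
theorem full_step [Nonempty A] {t : ℕ} {Y : Type} {Q : Set (Y → A)} (hR : RT t Q) {L : Type}
    (F : Y → L)
    (h : ∀ S : Finset L, S.card < t → Res Q (fun y => if F y ∈ S then some (F y) else none))
    (S : Finset L) : Res Q (fun y => if F y ∈ S then some (F y) else none) := by
  induction S using Finset.strongInduction with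
  | H S ih =>
    by_cases hS : S.card < t
    · exact h S hS
    · push Not at hS
      refine hR (Option L) _ none (S.map ⟨some, Option.some_injective _⟩) (by simpa using hS)
        (by simp) ?_
      intro l hl
      obtain ⟨l', hl', rfl⟩ := Finset.mem_map.1 hl
      refine (ih (S.erase l') (Finset.erase_ssubset hl')).mono ?_
      intro y y' hy
      simp only [merge, Function.Embedding.coeFn_mk, Finset.mem_erase] at hy ⊢
      by_cases h1 : F y ∈ S <;> by_cases h2 : F y' ∈ S <;> by_cases h3 : F y = l' <;>
        by_cases h4 : F y' = l' <;> simp_all

theorem full_step' [Nonempty A] {t : ℕ} {Y : Type} {Q : Set (Y → A)} (hR : RT t Q) {L : Type}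
    [Finite L] (F : Y → L)
    (h : ∀ S : Finset L, S.card < t → Res Q (fun y => if F y ∈ S then some (F y) else none)) :
    Res Q F := by
  have := Fintype.ofFinite L
  refine (full_step hR F h Finset.univ).mono ?_
  intro y y' hy
  simpa using hy

theorem T_one [Nonempty A] (c : R → X → A) : T c 1 1 := by
  intro Y Q hD hR P K _ _ π κ hJ
  refine full_step' hR _ ?_
  intro S hS
  have : S = ∅ := by
    rw [← Finset.card_eq_zero]; omega
  subst this
  refine (hJ 0).mono ?_
  intro y y' _
  simp

/-- The function deleting a coordinate which depends on the passive part is resolved. -/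
theorem reg [Nonempty A] {c : R → X → A} {t m : ℕ} (hT : T c t m) {Y : Type} {Q : Set (Y → A)}
    (hD : RD c Q) (hR : RT (t + 1) Q) {W K ι : Type} [Finite W] [Finite K] [Fintype ι]
    (hι : 2 + m * m ≤ Fintype.card ι) (ω : Y → W) (κ : Y → ι → K)
    (hJ : ∀ i : ι, Res Q (fun y => (ω y, era {i} (κ y)))) (x : W → ι) :
    Res Q (fun y => (ω y, era {x (ω y)} (κ y))) := by
  have := Fintype.ofFinite W
  obtain ⟨n, hn⟩ : ∃ n, (Finset.univ.image x).card = n := ⟨_, rfl⟩
  induction n using Nat.strong_induction_on generalizing x with
  | _ n ih =>
    by_cases hc : ∀ w w', x w = x w'
    · -- constant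
      rcases isEmpty_or_nonempty W with hW | ⟨⟨w0⟩⟩
      · have : IsEmpty Y := ⟨fun y => hW.elim (ω y)⟩
        have hι' : 0 < Fintype.card ι := by omega
        obtain ⟨i⟩ := Fintype.card_pos_iff.1 hι'
        refine (hJ i).mono ?_
        intro y
        exact (this.elim y)
      · refine (hJ (x w0)).mono ?_
        intro y y' hy
        rw [hc (ω y) w0, hc (ω y') w0]
        exact hy
    · push Not at hc
      obtain ⟨w0, w1, hw⟩ := hc
      set v0 := x w0 with hv0
      set x1 := x w1 with hx1
      -- step β
      have beta : ∀ B : Finset ι, x1 ∉ B → m ≤ B.card →
          Res Q (fun y => (ω y, era (if x (ω y) = v0 then (insert v0 (B : Set ι)) else {x (ω y)})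
            (κ y))) := by
        intro B hB hcard
        obtain ⟨e, he, heB⟩ : ∃ e : Fin m → ι, Function.Injective e ∧ ∀ j, e j ∈ B := by
          obtain ⟨B', hB', hcB⟩ := Finset.exists_subset_card_eq hcard
          refine ⟨fun j => (B'.equivFinOfCardEq hcB).symm j, ?_, ?_⟩
          · intro a b hab
            simpa using hab
          · intro j
            exact hB' ((B'.equivFinOfCardEq hcB).symm j).2
        refine DT hT hD hR (fun y => x (ω y) = x1)
          (fun y => (ω y, era (insert x1 (Set.range e)) (κ y)))
          (fun j y => κ y (e j))
          (fun y => (ω y, era (if x (ω y) = v0 then (insert v0 (B : Set ι)) else {x (ω y)})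
            (κ y))) ?_ ?_ _ ?_ ?_
        · refine ⟨_, _, hJ x1, ?_⟩
          intro y y' hy
          simp only [Prod.mk.injEq] at hy
          obtain ⟨hy1, hy2⟩ := hy
          rw [era_eq_iff rfl] at hy2
          refine ⟨by rw [hy1], fun _ => ⟨?_, fun j => ?_⟩⟩
          · rw [hy1, Prod.mk.injEq]
            refine ⟨rfl, ?_⟩
            rw [era_eq_iff rfl]
            intro j hj
            simp only [Set.mem_insert_iff, not_or] at hj
            exact hy2 j hj.1
          · apply hy2
            simp only [Set.mem_singleton_iff]
            intro h
            exact hB (h ▸ heB j)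
        · intro i
          refine ⟨_, _, ih _ ?_ (fun w => if x w = v0 ∨ x w = x1 then e i else x w) rfl, ?_⟩
          · rw [← hn]
            have hsub : (Finset.univ.image (fun w => if x w = v0 ∨ x w = x1 then e i else x w)) ⊆
                insert (e i) (((Finset.univ.image x).erase v0).erase x1) := by
              intro z hz
              simp only [Finset.mem_image, Finset.mem_univ, true_and] at hz
              obtain ⟨w, rfl⟩ := hz
              by_cases h : x w = v0 ∨ x w = x1
              · simp [h]
              · simp only [h, if_false]
                push Not at h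
                simp [h]
            have h0 : v0 ∈ Finset.univ.image x := by simp [hv0]
            have h1 : x1 ∈ (Finset.univ.image x).erase v0 := by
              simp only [Finset.mem_erase, Finset.mem_image, Finset.mem_univ, true_and]
              exact ⟨fun h => hw h.symm, w1, rfl⟩
            have c0 := Finset.card_erase_add_one h0
            have c1 := Finset.card_erase_add_one h1
            have c2 := (Finset.card_le_card hsub).trans (Finset.card_insert_le _ _)
            omega
          · intro y y' hy
            simp only [Prod.mk.injEq] at hy
            obtain ⟨hy1, hy2⟩ := hy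
            rw [hy1, era_eq_iff rfl] at hy2
            refine ⟨by rw [hy1], ?_, ?_⟩
            · intro hr
              rw [hy1] at hr
              simp only [hr, or_true, if_true, Set.mem_singleton_iff] at hy2
              refine ⟨?_, fun j hj => ?_⟩
              · rw [hy1, Prod.mk.injEq]
                refine ⟨rfl, ?_⟩
                rw [era_eq_iff rfl]
                intro j hj
                simp only [Set.mem_insert_iff, not_or, Set.mem_range, not_exists] at hj
                exact hy2 j (fun h => hj.2 i h.symm)
              · exact hy2 _ (fun h => hj (he h))
            · intro hr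
              rw [hy1] at hr
              rw [hy1, Prod.mk.injEq]
              refine ⟨rfl, ?_⟩
              rw [era_eq_iff rfl]
              intro j hj
              by_cases h0 : x (ω y') = v0
              · simp only [h0, if_true, true_or, Set.mem_singleton_iff, Set.mem_insert_iff,
                  not_or] at hy2 hj
                exact hy2 j (fun h => hj.2 (by rw [h]; exact_mod_cast heB i))
              · simp only [h0, hr, if_false, or_self, Set.mem_singleton_iff] at hy2 hj
                exact hy2 j hj
        · intro y y' hr hr' hπ hκ
          simp only [Prod.mk.injEq] at hπ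
          obtain ⟨h1, h2⟩ := hπ
          rw [era_eq_iff rfl] at h2
          rw [h1, Prod.mk.injEq]
          refine ⟨rfl, ?_⟩
          rw [era_eq_iff rfl]
          intro j hj
          have : ¬ (x1 = v0) := fun h => hw h.symm
          simp only [hr', this, if_false, Set.mem_singleton_iff] at hj
          by_cases hj' : j ∈ Set.range e
          · obtain ⟨i, rfl⟩ := hj'
            exact hκ i
          · exact h2 j (by simp only [Set.mem_insert_iff, not_or]; exact ⟨hj, hj'⟩)
        · intro y y' hr hr' h
          exact h
      -- main step
      obtain ⟨e, he, he0, he1⟩ : ∃ e : Fin m × Fin m → ι, Function.Injective e ∧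
          (∀ j, e j ≠ v0) ∧ (∀ j, e j ≠ x1) := by
        have hcard : m * m ≤ ((Finset.univ.erase v0).erase x1).card := by
          have h1 := Finset.pred_card_le_card_erase (s := Finset.univ.erase v0) (a := x1)
          have h2 := Finset.pred_card_le_card_erase (s := (Finset.univ : Finset ι)) (a := v0)
          rw [Finset.card_univ] at h2
          omega
        obtain ⟨B', hB', hcB⟩ := Finset.exists_subset_card_eq hcard
        refine ⟨fun j => (B'.equivFinOfCardEq hcB).symm (finProdFinEquiv j), ?_, ?_, ?_⟩
        · intro a b hab
          simpa using hab
        · intro j
          have := hB' ((B'.equivFinOfCardEq hcB).symm (finProdFinEquiv j)).2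
          simp only [Finset.mem_erase] at this
          exact this.2.1
        · intro j
          have := hB' ((B'.equivFinOfCardEq hcB).symm (finProdFinEquiv j)).2
          simp only [Finset.mem_erase] at this
          exact this.1
      refine DT hT hD hR (fun y => x (ω y) = v0)
          (fun y => (ω y, era (insert v0 (Set.range e)) (κ y)))
          (fun a y => fun b : Fin m => κ y (e (a, b)))
          (fun y => (ω y, era {x (ω y)} (κ y))) ?_ ?_ _ ?_ ?_
      · refine ⟨_, _, hJ v0, ?_⟩
        intro y y' hy
        simp only [Prod.mk.injEq] at hy
        obtain ⟨hy1, hy2⟩ := hy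
        rw [era_eq_iff rfl] at hy2
        refine ⟨by rw [hy1], fun _ => ⟨?_, fun j => ?_⟩⟩
        · rw [hy1, Prod.mk.injEq]
          refine ⟨rfl, ?_⟩
          rw [era_eq_iff rfl]
          intro j hj
          simp only [Set.mem_insert_iff, not_or] at hj
          exact hy2 j hj.1
        · funext b
          apply hy2
          exact he0 _
      · intro a
        refine ⟨_, _, beta (Finset.univ.image (fun b => e (a, b))) ?_ ?_, ?_⟩
        · simp only [Finset.mem_image, Finset.mem_univ, true_and, not_exists]
          intro b
          exact he1 _
        · rw [Finset.card_image_of_injective]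
          · simp
          · intro b b' hb
            have := he hb
            simpa using this
        · intro y y' hy
          simp only [Prod.mk.injEq] at hy
          obtain ⟨hy1, hy2⟩ := hy
          rw [hy1, era_eq_iff rfl] at hy2
          refine ⟨by rw [hy1], ?_, ?_⟩
          · intro hr
            rw [hy1] at hr
            simp only [hr, if_true, Set.mem_insert_iff, Finset.coe_image, Finset.coe_univ,
              Set.image_univ, Set.mem_range, not_or, not_exists] at hy2
            refine ⟨?_, fun j hj => ?_⟩
            · rw [hy1, Prod.mk.injEq]
              refine ⟨rfl, ?_⟩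
              rw [era_eq_iff rfl]
              intro j hj
              simp only [Set.mem_insert_iff, not_or, Set.mem_range, not_exists] at hj
              exact hy2 j ⟨hj.1, fun b hb => hj.2 _ hb⟩
            · funext b
              apply hy2
              refine ⟨he0 _, fun b' hb' => ?_⟩
              have := he hb'
              simp only [Prod.mk.injEq] at this
              exact hj this.1.symm
          · intro hr
            rw [hy1] at hr
            rw [hy1, Prod.mk.injEq]
            refine ⟨rfl, ?_⟩
            rw [era_eq_iff rfl]
            intro j hj
            simp only [hr, if_false] at hy2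
            exact hy2 j hj
      · intro y y' hr hr' hπ hκ
        simp only [Prod.mk.injEq] at hπ
        obtain ⟨h1, h2⟩ := hπ
        rw [era_eq_iff rfl] at h2
        rw [h1, Prod.mk.injEq]
        refine ⟨rfl, ?_⟩
        rw [era_eq_iff rfl]
        intro j hj
        simp only [hr', Set.mem_singleton_iff] at hj
        by_cases hj' : j ∈ Set.range e
        · obtain ⟨⟨i, b⟩, rfl⟩ := hj'
          exact congrFun (hκ i) b
        · exact h2 j (by simp only [Set.mem_insert_iff, not_or]; exact ⟨hj, hj'⟩)
      · intro y y' hr hr' h
        exact h

end MPb06d56
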