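import Pool.Agent.Lib.MP_b06d56_al.Config

/-!
# Small sets of values are resolved
-/

open scoped Classical

namespace MPb06d56

variable {A : Type} {R X : Type}

theorem small_one [Nonempty A] {c : R → X → A} {t M N : ℕ}
    (hcube : ∀ (Q : Set ((Fin M ⊕ Fin M ⊕ Fin N → Bool) → A)), RD c Q → RT (t + 1) Q →
        (∀ i, Res Q (fun y => era {i} y)) → Res Q (fun y => y = fun _ => false))
    {Y : Type} {Q : Set (Y → A)} (hD : RD c Q) (hR : RT (t + 1) Q) {P K ι : Type}
    [Fintype ι] (hι : 2 * M + N ≤ Fintype.card ι)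
    (π : Y → P) (κ : Y → ι → K) (hJ : ∀ i : ι, Res Q (fun y => (π y, era {i} (κ y))))
    (z : P × (ι → K)) : Res Q (fun y => (π y, κ y) = z) := by
  obtain ⟨e⟩ : Nonempty ((Fin M ⊕ Fin M ⊕ Fin N) ↪ ι) := by
    apply Function.Embedding.nonempty_of_card_le
    simp only [Fintype.card_sum, Fintype.card_fin]
    omega
  let θ : Y → (Fin M ⊕ Fin M ⊕ Fin N → Bool) ⊕ Unit := fun y =>
    if π y = z.1 ∧ ∀ i, i ∉ Set.range e → κ y i = z.2 i then
      Sum.inl (fun j => decide (κ y (e j) ≠ z.2 (e j))) else Sum.inr ()
  have h := hcube (der θ Q) (hD.der θ) (hR.der θ) ?_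
  · rw [res_der] at h
    refine h.mono ?_
    have hfun : ∀ y, ((π y, κ y) = z) = ((Sum.map (fun y => y = fun _ => false) id ∘ θ) y =
        Sum.inl True) := by
      intro y
      simp only [Function.comp, θ]
      by_cases hc : π y = z.1 ∧ ∀ i, i ∉ Set.range e → κ y i = z.2 i
      · rw [if_pos hc]
        simp only [Sum.map_inl, Sum.inl.injEq, eq_iff_iff, iff_true]
        obtain ⟨h1, h2⟩ := hc
        constructor
        · intro h
          funext j
          have : κ y = z.2 := congrArg Prod.snd h
          simp [this]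
        · intro h
          refine Prod.ext h1 ?_
          funext i
          by_cases hi : i ∈ Set.range e
          · obtain ⟨j, rfl⟩ := hi
            have := congrFun h j
            simpa using this
          · exact h2 i hi
      · rw [if_neg hc]
        simp only [Sum.map_inr, reduceCtorEq, eq_iff_iff, iff_false]
        intro h
        apply hc
        rw [← h]
        exact ⟨rfl, fun _ _ => rfl⟩
    intro y y' hy
    rw [hfun y, hfun y', hy]
  · intro i
    rw [res_der]
    refine (hJ (e i)).mono ?_
    intro y y' hy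
    rw [Prod.mk.injEq, era_eq_iff rfl] at hy
    obtain ⟨h1, h2⟩ := hy
    simp only [Set.mem_singleton_iff] at h2
    simp only [Function.comp, θ]
    have h3 : (π y = z.1 ∧ ∀ i, i ∉ Set.range e → κ y i = z.2 i) ↔
        (π y' = z.1 ∧ ∀ i, i ∉ Set.range e → κ y' i = z.2 i) := by
      rw [h1]
      refine and_congr_right (fun _ => forall_congr' (fun j => ?_))
      refine imp_congr_right (fun hj => ?_)
      rw [h2 j (by rintro rfl; exact hj ⟨i, rfl⟩)]
    by_cases hc : π y = z.1 ∧ ∀ i, i ∉ Set.range e → κ y i = z.2 i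
    · rw [if_pos hc, if_pos (h3.1 hc)]
      simp only [Sum.map_inl, Sum.inl.injEq]
      rw [era_eq_iff rfl]
      intro j hj
      rw [h2 (e j) (fun h => hj (by simpa using h))]
    · rw [if_neg hc, if_neg (fun h => hc (h3.2 h))]

theorem small [Nonempty A] {c : R → X → A} {t M m : ℕ} (hT : T c t m)
    (hcube : ∀ (Q : Set ((Fin M ⊕ Fin M ⊕ Fin (2 + m * m) → Bool) → A)), RD c Q → RT (t + 1) Q →
        (∀ i, Res Q (fun y => era {i} y)) → Res Q (fun y => y = fun _ => false)) (n : ℕ) :
    ∀ (Y : Type) (Q : Set (Y → A)), RD c Q → RT (t + 1) Q → ∀ (P K ι : Type)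
    [Finite P] [Finite K] [Fintype ι] (_ : 2 * M + (2 + m * m) + n ≤ Fintype.card ι)
    (π : Y → P) (κ : Y → ι → K) (_ : ∀ i : ι, Res Q (fun y => (π y, era {i} (κ y))))
    (S : Finset (P × (ι → K))) (_ : S.card ≤ n),
    Res Q (fun y => if (π y, κ y) ∈ S then some (π y, κ y) else none) := by
  induction n with
  | zero =>
    intro Y Q hD hR P K ι _ _ _ hι π κ hJ S hS
    have h0 : 0 < Fintype.card ι := by omega
    obtain ⟨i⟩ := Fintype.card_pos_iff.1 h0
    refine (hJ i).mono ?_
    intro y y' _
    rw [Nat.le_zero, Finset.card_eq_zero] at hS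
    subst hS
    simp
  | succ n ih =>
    intro Y Q hD hR P K ι _ _ _ hι π κ hJ S hS
    by_cases hS' : S.card ≤ n
    · exact ih Y Q hD hR P K ι (by omega) π κ hJ S hS'
    have hS1 : S.card = n + 1 := by omega
    rcases Nat.eq_zero_or_pos n with hn | hn
    · subst hn
      obtain ⟨z, rfl⟩ := Finset.card_eq_one.1 hS1
      refine (small_one hcube hD hR (by omega) π κ hJ z).mono ?_
      intro y y' hy
      simp only [Finset.mem_singleton]
      by_cases h : (π y, κ y) = z
      · have h' : (π y', κ y') = z := by rw [← hy]; exact h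
        rw [if_pos h, if_pos h', h, h']
      · have h' : ¬ (π y', κ y') = z := by rw [← hy]; exact h
        rw [if_neg h, if_neg h']
    -- at least two elements
    obtain ⟨s, hs, s', hs', hss⟩ := Finset.one_lt_card.1 (by omega : 1 < S.card)
    have h0 : 0 < Fintype.card ι := by omega
    obtain ⟨i0⟩ := Fintype.card_pos_iff.1 h0
    obtain ⟨v, hv⟩ : ∃ v, (s.1, s.2 v) ≠ (s'.1, s'.2 v) := by
      by_contra hcon
      push Not at hcon
      apply hss
      refine Prod.ext ?_ ?_
      · exact (Prod.mk.inj (hcon i0)).1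
      · funext v
        exact (Prod.mk.inj (hcon v)).2
    set r0 : P × K := (s.1, s.2 v) with hr0
    let S1 := S.filter (fun z => (z.1, z.2 v) = r0)
    let S0 := S.filter (fun z => (z.1, z.2 v) ≠ r0)
    have hcS : S1.card + S0.card = n + 1 := by
      rw [← hS1]
      exact Finset.card_filter_add_card_filter_not _
    have hS1n : 0 < S1.card := Finset.card_pos.2 ⟨s, by simp [S1, hs, hr0]⟩
    have hS0n : 0 < S0.card := Finset.card_pos.2 ⟨s', by simp only [S0, Finset.mem_filter]; exact ⟨hs', fun h => hv h.symm⟩⟩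
    let φ : P × (ι → K) → (P × K) × ({i // i ≠ v} → K) := fun z => ((z.1, z.2 v), fun i => z.2 i.1)
    have hφ : Function.Injective φ := by
      intro z z' h
      simp only [φ, Prod.mk.injEq] at h
      refine Prod.ext h.1.1 ?_
      funext i
      by_cases hi : i = v
      · rw [hi]; exact h.1.2
      · exact congrFun h.2 ⟨i, hi⟩
    have hcard : Fintype.card {i // i ≠ v} = Fintype.card ι - 1 := by
      simp [Fintype.card_subtype_compl]
    let rr : Y → Prop := fun y => (π y, κ y v) = r0
    have hJ' : ∀ i : {i // i ≠ v}, Res Q (fun y => ((π y, κ y v), era {i}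
        (fun j : {j // j ≠ v} => κ y j.1))) := by
      intro i
      refine (hJ i.1).mono ?_
      intro y y' hy
      rw [Prod.mk.injEq, era_eq_iff rfl] at hy
      obtain ⟨h1, h2⟩ := hy
      simp only [Set.mem_singleton_iff] at h2
      rw [Prod.mk.injEq, Prod.mk.injEq, era_eq_iff rfl]
      refine ⟨⟨h1, h2 v (fun h => i.2 h.symm)⟩, fun j hj => ?_⟩
      exact h2 j.1 (fun h => hj (Subtype.ext h))
    have hreg := fun x => reg hT hD hR (by rw [hcard]; omega) (fun y => (π y, κ y v))
      (fun y => (fun j : {j // j ≠ v} => κ y j.1)) hJ' x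
    -- claim A
    have claimA : ∀ i : {i // i ≠ v}, Res Q (fun y => if rr y then
        (Sum.inr (π y, era {i.1} (κ y)) : Option (P × (ι → K)) ⊕ (P × (ι → Option K)))
        else Sum.inl (if (π y, κ y) ∈ S0 then some (π y, κ y) else none)) := by
      intro i
      let θ2 : Y → (P × (ι → K)) ⊕ (P × (ι → Option K)) := fun y =>
        if rr y then Sum.inr (π y, era {i.1} (κ y)) else Sum.inl (π y, κ y)
      have h := ih (P × (ι → K)) (der θ2 Q) (hD.der θ2) (hR.der θ2) (P × K) K {i // i ≠ v}
        (by rw [hcard]; omega) (fun z => (z.1, z.2 v)) (fun z => fun j => z.2 j.1) ?_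
        (S0.image φ) (Finset.card_image_le.trans (by omega))
      · rw [res_der] at h
        refine h.mono ?_
        intro y y' hy
        simp only [Function.comp, θ2] at hy
        by_cases h1 : rr y <;> by_cases h2 : rr y'
        · simp only [h1, h2, if_true, Sum.map_inr, id] at hy ⊢
          simpa using hy
        · simp [h1, h2] at hy
        · simp [h1, h2] at hy
        · simp only [h1, h2, if_false, Sum.map_inl, Sum.inl.injEq] at hy ⊢
          have hm : ∀ z : P × (ι → K), ((z.1, z.2 v), (fun j : {j // j ≠ v} => z.2 j.1)) ∈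
              S0.image φ ↔ z ∈ S0 := fun z => hφ.mem_finset_image
          have hm1 := hm (π y, κ y)
          have hm2 := hm (π y', κ y')
          simp only at hm1 hm2
          simp only [hm1, hm2] at hy
          by_cases h3 : (π y, κ y) ∈ S0 <;> by_cases h4 : (π y', κ y') ∈ S0
          · rw [if_pos h3, if_pos h4] at hy ⊢
            have := hφ (a₁ := (π y, κ y)) (a₂ := (π y', κ y')) (Option.some_injective _ hy)
            rw [this]
          · rw [if_pos h3, if_neg h4] at hy; simp at hy
          · rw [if_neg h3, if_pos h4] at hy; simp at hy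
          · rw [if_neg h3, if_neg h4]
      · intro i'
        rw [res_der]
        refine (hreg (fun w => if w = r0 then i else i')).mono ?_
        intro y y' hy
        rw [Prod.mk.injEq] at hy
        obtain ⟨h1, h2⟩ := hy
        simp only [Function.comp, θ2, rr]
        simp only [h1] at h2 ⊢
        by_cases h3 : (π y', κ y' v) = r0
        · simp only [h3, if_true, Sum.map_inr, id, Sum.inr.injEq, Prod.mk.injEq] at h2 ⊢
          rw [era_eq_iff rfl] at h2 ⊢
          rw [Prod.mk.injEq] at h1
          refine ⟨h1.1, fun j hj => ?_⟩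
          by_cases hjv : j = v
          · rw [hjv]; exact h1.2
          · exact h2 ⟨j, hjv⟩ (fun h => hj (congrArg Subtype.val h))
        · simp only [h3, if_false, Sum.map_inl, Sum.inl.injEq, Prod.mk.injEq] at h2 ⊢
          rw [Prod.mk.injEq] at h1
          exact ⟨h1, h2⟩
    -- claim B
    let θ1 : Y → (P × (ι → K)) ⊕ Option (P × (ι → K)) := fun y =>
      if rr y then Sum.inl (π y, κ y) else Sum.inr (if (π y, κ y) ∈ S0 then some (π y, κ y) else none)
    have h := ih (P × (ι → K)) (der θ1 Q) (hD.der θ1) (hR.der θ1) (P × K) K {i // i ≠ v}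
      (by rw [hcard]; omega) (fun z => (z.1, z.2 v)) (fun z => fun j => z.2 j.1) ?_
      (S1.image φ) (Finset.card_image_le.trans (by omega))
    · rw [res_der] at h
      refine h.mono ?_
      intro y y' hy
      simp only [Function.comp, θ1] at hy
      have hm : ∀ z : P × (ι → K), ((z.1, z.2 v), (fun j : {j // j ≠ v} => z.2 j.1)) ∈
          S1.image φ ↔ z ∈ S1 := fun z => hφ.mem_finset_image
      have hm1 := hm (π y, κ y)
      have hm2 := hm (π y', κ y')
      simp only at hm1 hm2
      by_cases h1 : rr y <;> by_cases h2 : rr y'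
      · simp only [h1, h2, if_true, Sum.map_inl, Sum.inl.injEq, hm1, hm2] at hy
        have h5 : (π y, κ y) ∈ S1 ↔ (π y, κ y) ∈ S := by
          simp only [S1, Finset.mem_filter]
          exact ⟨fun h => h.1, fun h => ⟨h, h1⟩⟩
        have h6 : (π y', κ y') ∈ S1 ↔ (π y', κ y') ∈ S := by
          simp only [S1, Finset.mem_filter]
          exact ⟨fun h => h.1, fun h => ⟨h, h2⟩⟩
        simp only [h5, h6] at hy
        by_cases h3 : (π y, κ y) ∈ S <;> by_cases h4 : (π y', κ y') ∈ S
        · rw [if_pos h3, if_pos h4] at hy ⊢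
          have := hφ (a₁ := (π y, κ y)) (a₂ := (π y', κ y')) (Option.some_injective _ hy)
          rw [this]
        · rw [if_pos h3, if_neg h4] at hy; simp at hy
        · rw [if_neg h3, if_pos h4] at hy; simp at hy
        · rw [if_neg h3, if_neg h4]
      · simp [h1, h2] at hy
      · simp [h1, h2] at hy
      · simp only [h1, h2, if_false, Sum.map_inr, id, Sum.inr.injEq] at hy
        have h5 : (π y, κ y) ∈ S0 ↔ (π y, κ y) ∈ S := by
          simp only [S0, Finset.mem_filter]
          exact ⟨fun h => h.1, fun h => ⟨h, h1⟩⟩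
        have h6 : (π y', κ y') ∈ S0 ↔ (π y', κ y') ∈ S := by
          simp only [S0, Finset.mem_filter]
          exact ⟨fun h => h.1, fun h => ⟨h, h2⟩⟩
        simp only [h5, h6] at hy
        exact hy
    · intro i
      rw [res_der]
      refine (claimA i).mono ?_
      intro y y' hy
      simp only [Function.comp, θ1]
      by_cases h1 : rr y <;> by_cases h2 : rr y'
      · simp only [h1, h2, if_true, Sum.inr.injEq, Prod.mk.injEq] at hy
        obtain ⟨h3, h4⟩ := hy
        rw [era_eq_iff rfl] at h4
        simp only [Set.mem_singleton_iff] at h4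
        simp only [h1, h2, if_true, Sum.map_inl, Sum.inl.injEq, Prod.mk.injEq]
        rw [era_eq_iff rfl]
        refine ⟨⟨h3, h4 v (fun h => i.2 h.symm)⟩, fun j hj => ?_⟩
        exact h4 j.1 (fun h => hj (Subtype.ext h))
      · simp [h1, h2] at hy
      · simp [h1, h2] at hy
      · simp only [h1, h2, if_false, Sum.inl.injEq] at hy
        simp only [h1, h2, if_false, Sum.map_inr, id]
        rw [hy]

/-- the main inductive theorem -/
theorem T_all [Nonempty A] [Fintype A] [Fintype R] [Fintype X] (c : R → X → A)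
    (hX : Fintype.card R * Fintype.card A < Fintype.card X) (t : ℕ) : ∃ M, T c (t + 1) M := by
  obtain ⟨M, hM⟩ := config c hX
  induction t with
  | zero => exact ⟨1, T_one c⟩
  | succ t ih =>
    obtain ⟨m, hm⟩ := ih
    refine ⟨2 * M + (2 + m * m) + (t + 1), ?_⟩
    intro Y Q hD hR P K _ _ π κ hJ
    refine full_step' hR _ ?_
    intro S hS
    have key := small hm (fun Q hD hR hJ => hM (t + 1) m (2 + m * m) hm le_rfl Q hD hR hJ) (t + 1) Y
      Q hD hR P K (Fin (2 * M + (2 + m * m) + (t + 1))) (by simp) π (fun y j => κ j y) ?_ S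
      (by omega)
    · convert key
    intro i
    refine (hJ i).mono ?_
    intro y y' hy
    rw [Prod.mk.injEq] at hy ⊢
    refine ⟨hy.1, ?_⟩
    rw [era_eq_iff rfl]
    intro j hj
    have := congrFun hy.2 j
    simpa [show ¬ j = i from hj] using this

end MPb06d56
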